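import Pool.Agent.InfW.Main12

/-!
# Torsion group ℤ/2 and rank at least 12: infinitely many curves

`E₀ : y² = x (x + 4096)(x + 50625)`, the point `(9734400/49, -34370668800/343)` has infinite order.  A point
`(x, y)` gives `M = (12960000 + 256 x - y)/(x + 34560)`, and with `N = M² - 146625`
`r = 10 (M² - 782 M + 146625)/N`, `u = 5 (M² - 512 M + 45375 - 2 x)/N`, `v = -2 (M² - 750 M + 146625)/N` one has
`391 u² = 64 r² + 3375`, `391 v² = 15 r² + 64`.
-/

set_option autoImplicit false

namespace Pool.Agent.InfW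

open WeierstrassCurve Pool.Agent.InfR Pool.Agent.InfS

/-- points congruent to a given one -/
theorem orbitQ (A B : ℤ) (x0 y0 : ℚ) (h0 : (WI ℚ A B).toAffine.Nonsingular x0 y0)
    (hinf : ¬ IsOfFinAddOrder (Affine.Point.some _ _ h0)) (S : Finset ℕ)
    (hD : ∀ p ∈ S, ¬ (p : ℤ) ∣ 2 * B * (A ^ 2 - 4 * B)) :
    ∃ x y : ℕ → ℚ, Function.Injective (fun k => (x k, y k)) ∧
      (∀ k, y k ^ 2 = x k ^ 3 + A * x k ^ 2 + B * x k) ∧
      ∀ (p : ℕ) [Fact p.Prime], p ∈ S → ∀ a b : ZMod p, Cg p x0 a → Cg p y0 b →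
        ∀ k, Cg p (x k) a ∧ Cg p (y k) b := by
  classical
  set P : (WI ℚ A B).toAffine.Point := Affine.Point.some _ _ h0 with hPdef
  let N : ℕ → ℕ := fun p => if hp : p.Prime then
    (haveI := Fact.mk hp; Nat.card (WI (ZMod p) A B).toAffine.Point) else 1
  have hN : ∀ (p : ℕ) [Fact p.Prime], N p = Nat.card (WI (ZMod p) A B).toAffine.Point := by
    intro p hp
    have : p.Prime := hp.out
    simp only [N, this, dif_pos]
  set M : ℕ := ∏ p ∈ S, N p with hM
  have hM0 : M ≠ 0 := by
    rw [hM, Finset.prod_ne_zero_iff]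
    intro p _
    by_cases hp : p.Prime
    · have := Fact.mk hp
      rw [hN p]
      exact Nat.card_pos.ne'
    · simp only [N, hp, dif_neg, not_false_eq_true]
      norm_num
  have hinj := injective_nsmul_iff_not_isOfFinAddOrder.2 hinf
  have hex : ∀ k : ℕ, ∃ (x y : ℚ) (h : (WI ℚ A B).toAffine.Nonsingular x y),
      (1 + k * M) • P = .some x y h := by
    intro k
    have h1 : (1 + k * M) • P ≠ 0 := by
      intro h2
      have h3 : (1 + k * M) • P = (0 : ℕ) • P := by rw [h2, zero_nsmul]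
      have h4 := hinj h3
      omega
    generalize (1 + k * M) • P = Q at h1
    cases Q with
    | zero => exact absurd rfl h1
    | some x y h => exact ⟨x, y, h, rfl⟩
  choose x y h hS using hex
  refine ⟨x, y, ?_, ?_, ?_⟩
  · intro j k hjk
    obtain ⟨e1, e2⟩ := Prod.mk.inj hjk
    have e3 : (.some (x j) (y j) (h j) : (WI ℚ A B).toAffine.Point) = .some (x k) (y k) (h k) := by
      simp only [Affine.Point.some.injEq]
      exact ⟨e1, e2⟩
    rw [← hS j, ← hS k] at e3
    have e4 := hinj e3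
    have e5 : j * M = k * M := by omega
    exact Nat.eq_of_mul_eq_mul_right (Nat.pos_of_ne_zero hM0) e5
  · intro k
    have h1 := (h k).1
    rw [Affine.equation_iff] at h1
    simp only [WI] at h1
    linear_combination h1
  · intro p hp hpS a b ha hb k
    obtain ⟨f, hf⟩ := WI_rdn A B p (hD p hpS)
    have hkill : f (.some (x k) (y k) (h k)) = f P := by
      rw [← hS k, add_smul, one_smul, map_add, mul_smul, map_nsmul, map_nsmul]
      have h1 : N p ∣ M := Finset.dvd_prod_of_mem N hpS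
      obtain ⟨c, hc⟩ := h1
      have h2 : M • f P = 0 := by
        rw [hc, hN p, mul_comm, mul_nsmul, card_nsmul_eq_zero']
      rw [h2, nsmul_zero, add_zero]
    obtain ⟨h', e1⟩ := hf.red x0 y0 h0 a b ha hb
    rw [hPdef, e1] at hkill
    obtain ⟨d1, d2⟩ := hf.int (x k) (y k) (h k)
      (by rw [hkill]; exact Affine.Point.some_ne_zero h')
    obtain ⟨h'', e2⟩ := hf.red (x k) (y k) (h k) _ _ (cg_cast d1) (cg_cast d2)
    rw [e2] at hkill
    obtain ⟨a1, a2⟩ := Affine.Point.some.inj hkill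
    exact ⟨⟨d1, a1⟩, ⟨d2, a2⟩⟩

instance fact11 : Fact (Nat.Prime 11) := ⟨by norm_num⟩
instance fact41 : Fact (Nat.Prime 41) := ⟨by norm_num⟩

theorem cardE11 : Nat.card (WI (ZMod 11) 54721 207360000).toAffine.Point = 16 :=
  card_aux _ _ (by decide +kernel)

theorem cardE41 : Nat.card (WI (ZMod 41) 54721 207360000).toAffine.Point = 48 :=
  card_aux _ _ (by decide +kernel)

section aux

private theorem nsE : (WI (ZMod 41) 54721 207360000).toAffine.Nonsingular
    (9734400 / 49 : ZMod 41) (-(34370668800 / 343) : ZMod 41) := by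
  rw [Affine.nonsingular_iff, Affine.equation_iff]
  decide +kernel

private theorem kE (h : (WI (ZMod 41) 54721 207360000).toAffine.Nonsingular
    (9734400 / 49 : ZMod 41) (-(34370668800 / 343) : ZMod 41)) :
    16 • (.some _ _ h : (WI (ZMod 41) 54721 207360000).toAffine.Point) ≠ 0 := by
  have key : 16 • (.some _ _ nsE : (WI (ZMod 41) 54721 207360000).toAffine.Point) ≠ 0 := by
    decide +kernel
  exact key

private def bM {K : Type*} [Field K] (x y : K) : K := (12960000 + 256 * x - y) / (x + 34560)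

private def bn {K : Type*} [Field K] (m : K) : K := m ^ 2 - 146625

private def br {K : Type*} [Field K] (m : K) : K := 10 * (m ^ 2 - 782 * m + 146625) / bn m

private def bv {K : Type*} [Field K] (m : K) : K := -(2 * (m ^ 2 - 750 * m + 146625)) / bn m

private def bu {K : Type*} [Field K] (x m : K) : K :=
  5 * (m ^ 2 - 512 * m + 45375 - 2 * x) / bn m

private theorem cgc {p : ℕ} [Fact p.Prime] {a : ℚ} {b c : ZMod p} (h : Cg p a b) (hb : b = c) :
    Cg p a c := hb ▸ h

private theorem cgm {p : ℕ} [Fact p.Prime] {x y : ℚ} {r s : ZMod p} (hx : Cg p x r) (hy : Cg p y s)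
    (h : r + 34560 ≠ 0) : Cg p (bM x y) (bM r s) :=
  Cg.div (Cg.sub (Cg.add (Cg.ofNat 12960000) (Cg.mul (Cg.ofNat 256) hx)) hy)
    (Cg.add hx (Cg.ofNat 34560)) h

private theorem cgn {p : ℕ} [Fact p.Prime] {m : ℚ} {r : ZMod p} (hm : Cg p m r) :
    Cg p (bn m) (bn r) := Cg.sub (Cg.pow hm 2) (Cg.ofNat 146625)

private theorem cgr {p : ℕ} [Fact p.Prime] {m : ℚ} {r : ZMod p} (hm : Cg p m r)
    (h : bn r ≠ 0) : Cg p (br m) (br r) :=
  Cg.div (Cg.mul (Cg.ofNat 10) (Cg.add (Cg.sub (Cg.pow hm 2) (Cg.mul (Cg.ofNat 782) hm))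
    (Cg.ofNat 146625))) (cgn hm) h

private theorem cgv {p : ℕ} [Fact p.Prime] {m : ℚ} {r : ZMod p} (hm : Cg p m r)
    (h : bn r ≠ 0) : Cg p (bv m) (bv r) :=
  Cg.div (Cg.neg (Cg.mul (Cg.ofNat 2) (Cg.add (Cg.sub (Cg.pow hm 2) (Cg.mul (Cg.ofNat 750) hm))
    (Cg.ofNat 146625)))) (cgn hm) h

private theorem cgu {p : ℕ} [Fact p.Prime] {x m : ℚ} {s r : ZMod p} (hx : Cg p x s) (hm : Cg p m r)
    (h : bn r ≠ 0) : Cg p (bu x m) (bu s r) :=
  Cg.div (Cg.mul (Cg.ofNat 5) (Cg.sub (Cg.add (Cg.sub (Cg.pow hm 2) (Cg.mul (Cg.ofNat 512) hm))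
    (Cg.ofNat 45375)) (Cg.mul (Cg.ofNat 2) hx))) (cgn hm) h

private theorem nm (m : ℚ) : bn m ≠ 0 := by
  intro h
  have h1 : IsSquare (146625 : ℚ) := ⟨m, by unfold bn at h; linear_combination -h⟩
  revert h1
  decide +kernel

private theorem eq_v (m : ℚ) : 391 * bv m ^ 2 = 15 * br m ^ 2 + 64 := by
  have h := nm m
  have e : 391 * bv m ^ 2 * bn m ^ 2 = (15 * br m ^ 2 + 64) * bn m ^ 2 := by
    unfold bv br
    field_simp
    unfold bn
    ring
  exact mul_right_cancel₀ (pow_ne_zero 2 h) e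

private theorem eq_u {x y m : ℚ} (hE : y ^ 2 = x ^ 3 + 54721 * x ^ 2 + 207360000 * x)
    (hx : x + 34560 ≠ 0) (hm : y = 12960000 + 256 * x - m * (x + 34560)) :
    391 * bu x m ^ 2 = 64 * br m ^ 2 + 3375 := by
  have h1 : 391 * (5 * (m ^ 2 - 512 * m + 45375 - 2 * x)) ^ 2 =
      64 * (10 * (m ^ 2 - 782 * m + 146625)) ^ 2 + 3375 * (m ^ 2 - 146625) ^ 2 := by
    have h2 : (x + 34560) * (391 * (5 * (m ^ 2 - 512 * m + 45375 - 2 * x)) ^ 2 -
        (64 * (10 * (m ^ 2 - 782 * m + 146625)) ^ 2 + 3375 * (m ^ 2 - 146625) ^ 2)) = 0 := by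
      rw [hm] at hE
      linear_combination (-39100) * hE
    have h4 := (mul_eq_zero.1 h2).resolve_left hx
    linarith
  have h := nm m
  have e : 391 * bu x m ^ 2 * bn m ^ 2 = (64 * br m ^ 2 + 3375) * bn m ^ 2 := by
    have e1 : 391 * bu x m ^ 2 * bn m ^ 2 =
        391 * (5 * (m ^ 2 - 512 * m + 45375 - 2 * x)) ^ 2 := by
      unfold bu
      field_simp
    have e2 : (64 * br m ^ 2 + 3375) * bn m ^ 2 =
        64 * (10 * (m ^ 2 - 782 * m + 146625)) ^ 2 + 3375 * bn m ^ 2 := by
      unfold br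
      field_simp
    rw [e1, e2]
    unfold bn
    exact h1
  exact mul_right_cancel₀ (pow_ne_zero 2 h) e

private theorem ns0 : (WI ℚ 54721 207360000).toAffine.Nonsingular
    (9734400 / 49 : ℚ) (-(34370668800 / 343) : ℚ) :=
  WI_nonsing _ _ (by norm_num) _ _ (by norm_num)

private theorem cg0 {p : ℕ} [Fact p.Prime] (h : (49 : ZMod p) ≠ 0) :
    Cg p (9734400 / 49 : ℚ) (9734400 / 49) := Cg.div (Cg.ofNat _) (Cg.ofNat _) h

private theorem cg1 {p : ℕ} [Fact p.Prime] (h : (343 : ZMod p) ≠ 0) :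
    Cg p (-(34370668800 / 343) : ℚ) (-(34370668800 / 343)) :=
  Cg.neg (Cg.div (Cg.ofNat _) (Cg.ofNat _) h)

private theorem not_fin : ¬ IsOfFinAddOrder
    (Affine.Point.some _ _ ns0 : (WI ℚ 54721 207360000).toAffine.Point) := by
  obtain ⟨f, hf⟩ := WI_rdn 54721 207360000 41 (by norm_num)
  obtain ⟨g, hg⟩ := WI_rdn 54721 207360000 11 (by norm_num)
  refine inf_of (by norm_num) hf hg (by rw [cardE11]; norm_num) (by rw [cardE41]; norm_num)
    (n := 16) (by rw [cardE11, cardE41]; decide) _ ?_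
  obtain ⟨h', e⟩ := hf.red _ _ ns0 _ _ (cg0 (by decide +kernel)) (cg1 (by decide +kernel))
  rw [e]
  exact kE h'

private theorem st_of (x y : ℚ)
    (hE : y ^ 2 = x ^ 3 + 54721 * x ^ 2 + 207360000 * x)
    (c : ∀ (p : ℕ) [Fact p.Prime], p ∈ ({29, 37, 97, 107, 157, 163, 173, 191, 193, 227, 229, 251, 257} : Finset ℕ) → ∀ a b : ZMod p,
      Cg p (9734400 / 49 : ℚ) a → Cg p (-(34370668800 / 343) : ℚ) b → Cg p x a ∧ Cg p y b) :
    x + 34560 ≠ 0 ∧ St12 (br (bM x y)) (bu x (bM x y)) (bv (bM x y)) := by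
  have c29 := c 29 (by decide) _ _ (cg0 (by decide +kernel)) (cg1 (by decide +kernel))
  have m29 := cgm c29.1 c29.2 (by decide +kernel)
  have c37 := c 37 (by decide) _ _ (cg0 (by decide +kernel)) (cg1 (by decide +kernel))
  have m37 := cgm c37.1 c37.2 (by decide +kernel)
  have c97 := c 97 (by decide) _ _ (cg0 (by decide +kernel)) (cg1 (by decide +kernel))
  have m97 := cgm c97.1 c97.2 (by decide +kernel)
  have c107 := c 107 (by decide) _ _ (cg0 (by decide +kernel)) (cg1 (by decide +kernel))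
  have m107 := cgm c107.1 c107.2 (by decide +kernel)
  have c157 := c 157 (by decide) _ _ (cg0 (by decide +kernel)) (cg1 (by decide +kernel))
  have m157 := cgm c157.1 c157.2 (by decide +kernel)
  have c163 := c 163 (by decide) _ _ (cg0 (by decide +kernel)) (cg1 (by decide +kernel))
  have m163 := cgm c163.1 c163.2 (by decide +kernel)
  have c173 := c 173 (by decide) _ _ (cg0 (by decide +kernel)) (cg1 (by decide +kernel))
  have m173 := cgm c173.1 c173.2 (by decide +kernel)
  have c191 := c 191 (by decide) _ _ (cg0 (by decide +kernel)) (cg1 (by decide +kernel))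
  have m191 := cgm c191.1 c191.2 (by decide +kernel)
  have c193 := c 193 (by decide) _ _ (cg0 (by decide +kernel)) (cg1 (by decide +kernel))
  have m193 := cgm c193.1 c193.2 (by decide +kernel)
  have c227 := c 227 (by decide) _ _ (cg0 (by decide +kernel)) (cg1 (by decide +kernel))
  have m227 := cgm c227.1 c227.2 (by decide +kernel)
  have c229 := c 229 (by decide) _ _ (cg0 (by decide +kernel)) (cg1 (by decide +kernel))
  have m229 := cgm c229.1 c229.2 (by decide +kernel)
  have c251 := c 251 (by decide) _ _ (cg0 (by decide +kernel)) (cg1 (by decide +kernel))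
  have m251 := cgm c251.1 c251.2 (by decide +kernel)
  have c257 := c 257 (by decide) _ _ (cg0 (by decide +kernel)) (cg1 (by decide +kernel))
  have m257 := cgm c257.1 c257.2 (by decide +kernel)
  have hx : x + 34560 ≠ 0 :=
    (Cg.add c29.1 (Cg.ofNat 34560)).ne_zero (by decide +kernel)
  have hm : y = 12960000 + 256 * x - bM x y * (x + 34560) := by
    have h10 := div_mul_cancel₀ (12960000 + 256 * x - y) hx
    unfold bM
    linear_combination h10
  exact ⟨hx,
  { e1 := eq_u hE hx hm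
    e2 := eq_v _
    r29 := cgc (cgr m29 (by decide +kernel)) (by decide +kernel)
    u29 := cgc (cgu c29.1 m29 (by decide +kernel)) (by decide +kernel)
    v29 := cgc (cgv m29 (by decide +kernel)) (by decide +kernel)
    r37 := cgc (cgr m37 (by decide +kernel)) (by decide +kernel)
    u37 := cgc (cgu c37.1 m37 (by decide +kernel)) (by decide +kernel)
    v37 := cgc (cgv m37 (by decide +kernel)) (by decide +kernel)
    r97 := cgc (cgr m97 (by decide +kernel)) (by decide +kernel)
    u97 := cgc (cgu c97.1 m97 (by decide +kernel)) (by decide +kernel)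
    v97 := cgc (cgv m97 (by decide +kernel)) (by decide +kernel)
    r107 := cgc (cgr m107 (by decide +kernel)) (by decide +kernel)
    u107 := cgc (cgu c107.1 m107 (by decide +kernel)) (by decide +kernel)
    v107 := cgc (cgv m107 (by decide +kernel)) (by decide +kernel)
    r157 := cgc (cgr m157 (by decide +kernel)) (by decide +kernel)
    u157 := cgc (cgu c157.1 m157 (by decide +kernel)) (by decide +kernel)
    v157 := cgc (cgv m157 (by decide +kernel)) (by decide +kernel)
    r163 := cgc (cgr m163 (by decide +kernel)) (by decide +kernel)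
    u163 := cgc (cgu c163.1 m163 (by decide +kernel)) (by decide +kernel)
    v163 := cgc (cgv m163 (by decide +kernel)) (by decide +kernel)
    r173 := cgc (cgr m173 (by decide +kernel)) (by decide +kernel)
    u173 := cgc (cgu c173.1 m173 (by decide +kernel)) (by decide +kernel)
    v173 := cgc (cgv m173 (by decide +kernel)) (by decide +kernel)
    r191 := cgc (cgr m191 (by decide +kernel)) (by decide +kernel)
    u191 := cgc (cgu c191.1 m191 (by decide +kernel)) (by decide +kernel)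
    v191 := cgc (cgv m191 (by decide +kernel)) (by decide +kernel)
    r193 := cgc (cgr m193 (by decide +kernel)) (by decide +kernel)
    u193 := cgc (cgu c193.1 m193 (by decide +kernel)) (by decide +kernel)
    v193 := cgc (cgv m193 (by decide +kernel)) (by decide +kernel)
    r227 := cgc (cgr m227 (by decide +kernel)) (by decide +kernel)
    u227 := cgc (cgu c227.1 m227 (by decide +kernel)) (by decide +kernel)
    v227 := cgc (cgv m227 (by decide +kernel)) (by decide +kernel)
    r229 := cgc (cgr m229 (by decide +kernel)) (by decide +kernel)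
    u229 := cgc (cgu c229.1 m229 (by decide +kernel)) (by decide +kernel)
    v229 := cgc (cgv m229 (by decide +kernel)) (by decide +kernel)
    r251 := cgc (cgr m251 (by decide +kernel)) (by decide +kernel)
    u251 := cgc (cgu c251.1 m251 (by decide +kernel)) (by decide +kernel)
    v251 := cgc (cgv m251 (by decide +kernel)) (by decide +kernel)
    r257 := cgc (cgr m257 (by decide +kernel)) (by decide +kernel)
    u257 := cgc (cgu c257.1 m257 (by decide +kernel)) (by decide +kernel)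
    v257 := cgc (cgv m257 (by decide +kernel)) (by decide +kernel) }⟩

private theorem fin_cubic (a b c d : ℚ) (h : a ≠ 0 ∨ b ≠ 0 ∨ c ≠ 0 ∨ d ≠ 0) :
    {x : ℚ | a * x ^ 3 + b * x ^ 2 + c * x + d = 0}.Finite := by
  have h0 : (⟨a, b, c, d⟩ : Cubic ℚ).toPoly ≠ 0 := by
    rcases h with h | h | h | h
    · exact Cubic.ne_zero_of_a_ne_zero h
    · exact Cubic.ne_zero_of_b_ne_zero h
    · exact Cubic.ne_zero_of_c_ne_zero h
    · exact Cubic.ne_zero_of_d_ne_zero h
  refine (Polynomial.finite_setOfPred_isRoot h0).subset ?_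
  intro x hx
  simpa [Polynomial.IsRoot, Cubic.toPoly] using hx

private theorem fin_fibre (a : ℚ) : {q : ℚ × ℚ | q.2 ^ 2 = q.1 ^ 3 + 54721 * q.1 ^ 2 +
    207360000 * q.1 ∧ q.1 + 34560 ≠ 0 ∧ br (bM q.1 q.2) ^ 2 = a}.Finite := by
  have hU : {r : ℚ | 0 * r ^ 3 + 1 * r ^ 2 + 0 * r + (-a) = 0}.Finite := by
    apply fin_cubic
    right; left; norm_num
  have hM : ∀ r : ℚ, {m : ℚ | 0 * m ^ 3 + (10 - r) * m ^ 2 + (-7820) * m +
      (1466250 + 146625 * r) = 0}.Finite := by
    intro r
    apply fin_cubic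
    right; right; left; norm_num
  have hX : ∀ m : ℚ, {x : ℚ | 1 * x ^ 3 + (54721 - (256 - m) ^ 2) * x ^ 2 +
      (207360000 - 2 * (256 - m) * (12960000 - 34560 * m)) * x +
      (-(12960000 - 34560 * m) ^ 2) = 0}.Finite := by
    intro m
    apply fin_cubic
    left; norm_num
  have hfin := hU.biUnion (fun r _ => (hM r).biUnion (fun m _ =>
    (hX m).image (fun x => ((x, 12960000 + 256 * x - m * (x + 34560)) : ℚ × ℚ))))
  refine hfin.subset ?_
  rintro ⟨x, y⟩ ⟨hE, h1, h4⟩
  simp only at hE h1 h4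
  have hm : y = 12960000 + 256 * x - bM x y * (x + 34560) := by
    have h10 := div_mul_cancel₀ (12960000 + 256 * x - y) h1
    unfold bM
    linear_combination h10
  simp only [Set.mem_iUnion]
  refine ⟨br (bM x y), ?_, bM x y, ?_, x, ?_, ?_⟩
  · simp only [Set.mem_ofPred_eq]
    linear_combination h4
  · have h5 : br (bM x y) * bn (bM x y) = 10 * (bM x y ^ 2 - 782 * bM x y + 146625) := by
      unfold br
      exact div_mul_cancel₀ _ (nm _)
    unfold bn at h5
    simp only [Set.mem_ofPred_eq]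
    linear_combination -h5
  · simp only [Set.mem_ofPred_eq]
    generalize bM x y = m at *
    rw [hm] at hE
    linear_combination -hE
  · simp only [Prod.mk.injEq, true_and]
    rw [← hm]

theorem F12_c4 (K : Type*) [Field K] (a : K) : (F12 K a).c₄ =
    16 * (A12 a ^ 2 - 3 * B12 a) := by
  simp only [WeierstrassCurve.c₄, WeierstrassCurve.b₂, WeierstrassCurve.b₄, F12]
  ring

open Polynomial in
private theorem fin_j (j0 : ℚ) : {a : ℚ | (F12 ℚ a).c₄ ^ 3 = j0 * (F12 ℚ a).Δ}.Finite := by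
  let AX : ℚ[X] := -(75127360126 * ((X + 36) * (4 * X + 25)))
  let BX : ℚ[X] := 22593196761258923035600 * X ^ 4 + 1731932490959651766258200 * X ^ 3 +
    55812985897213088574755725 * X ^ 2 + 389684810465921647408095000 * X +
    1143780586038732978677250000
  have hA : ∀ r : ℚ, AX.eval r = A12 r := by
    intro r
    simp [AX, A12]
  have hB : ∀ r : ℚ, BX.eval r = B12 r := by
    intro r
    simp [BX, B12]
  have hne : (16 * (AX ^ 2 - 3 * BX)) ^ 3 - C j0 * (16 * BX ^ 2 * (AX ^ 2 - 4 * BX)) ≠ 0 := by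
    intro h0
    have h1 := congrArg (Polynomial.eval 0) h0
    have h2 := congrArg (Polynomial.eval (-36)) h0
    simp only [eval_sub, eval_pow, eval_mul, eval_C, eval_ofNat, hA, hB, eval_zero] at h1 h2
    norm_num [A12, B12] at h1 h2
    linarith
  refine (Polynomial.finite_setOfPred_isRoot hne).subset ?_
  intro r hr
  have h2 : (F12 ℚ r).c₄ ^ 3 = j0 * (F12 ℚ r).Δ := hr
  rw [F12_c4, F12_Δ] at h2
  show Polynomial.eval r _ = 0
  simp only [eval_sub, eval_pow, eval_mul, eval_C, eval_ofNat, hA, hB]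
  rw [h2, sub_self]

end aux

theorem base12 : Set.Infinite {a : ℚ | ∃ r u v : ℚ, r ^ 2 = a ∧ St12 r u v} := by
  obtain ⟨x, y, hinj, hE, hc⟩ := orbitQ 54721 207360000 (9734400 / 49) (-(34370668800 / 343))
    ns0 not_fin {29, 37, 97, 107, 157, 163, 173, 191, 193, 227, 229, 251, 257} (by
      intro p hp
      fin_cases hp <;> norm_num)
  have hE' : ∀ n, y n ^ 2 = x n ^ 3 + 54721 * x n ^ 2 + 207360000 * x n := by
    intro n
    have h := hE n
    push_cast at h
    exact h
  have hst := fun n => st_of (x n) (y n) (hE' n) (fun p _ hp a b ha hb => hc p hp a b ha hb n)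
  intro hfin
  refine Set.infinite_range_of_injective hinj ?_
  refine (hfin.biUnion (fun a _ => fin_fibre a)).subset ?_
  rintro _ ⟨n, rfl⟩
  simp only [Set.mem_iUnion]
  exact ⟨br (bM (x n) (y n)) ^ 2, ⟨_, _, _, rfl, (hst n).2⟩, hE' n, (hst n).1, rfl⟩

theorem final12 : Set.Infinite {j : ℚ | ∃ (E : WeierstrassCurve ℚ) (_ : E.IsElliptic),
    E.j = j ∧ Nonempty (AddCommGroup.torsion E.toAffine.Point ≃+ ZMod 2) ∧
    12 ≤ Module.rank ℤ E.toAffine.Point} := by
  intro hfin
  apply base12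
  refine (hfin.biUnion (fun j0 _ => fin_j j0)).subset ?_
  rintro _ ⟨r, u, v, rfl, h⟩
  have hΔ := F12_ell h
  have hE : (F12 ℚ (r ^ 2)).IsElliptic := ⟨isUnit_iff_ne_zero.2 hΔ⟩
  simp only [Set.mem_iUnion]
  refine ⟨(F12 ℚ (r ^ 2)).j, ⟨F12 ℚ (r ^ 2), hE, rfl, tor12 h, rank12 h⟩, ?_⟩
  have h1 : (F12 ℚ (r ^ 2)).j * (F12 ℚ (r ^ 2)).Δ = (F12 ℚ (r ^ 2)).c₄ ^ 3 := by
    rw [WeierstrassCurve.j, ← WeierstrassCurve.coe_Δ', mul_comm, ← mul_assoc, Units.mul_inv,
      one_mul]
  exact h1.symm

end Pool.Agent.InfW
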