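import Pool.Agent.InfW.Num12

/-!
# Torsion group ℤ/2 and rank at least 12: torsion and rank of the curves
-/

set_option autoImplicit false

namespace Pool.Agent.InfW

open WeierstrassCurve Pool.Agent.InfR Pool.Agent.InfS

theorem F12_ell {r u v : ℚ} (h : St12 r u v) : (F12 ℚ (r ^ 2)).Δ ≠ 0 := by
  rw [F12_Δ]
  have h1 := cgA (h.r29.pow 2)
  have h2 := cgB (h.r29.pow 2)
  exact (Cg.mul (Cg.mul (Cg.ofNat 16) (Cg.pow h2 2)) (Cg.sub (Cg.pow h1 2)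
    (Cg.mul (Cg.ofNat 4) h2))).ne_zero (by decide +kernel)

/-- the twelve points -/
noncomputable def P12 {r u v : ℚ} (h : St12 r u v) (i : Fin 12) :
    (F12 ℚ (r ^ 2)).toAffine.Point := .some _ _ (F12_pt h (F12_ell h) i)

theorem m37 {r u v : ℚ} (h : St12 r u v) (n : Fin 12 → ℤ)
    (hn : ∑ i, n i • P12 h i = 0) :
    (3 : ℤ) ∣ ∑ i, n i * (![1, 0, 0, 2, 1, 0, 1, 2, 1, 2, 2, 1] : Fin 12 → ℤ) i := by
  obtain ⟨f, hf⟩ := F12_rdn (h.r37.pow 2) (by decide +kernel)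
  exact red_one hf (F12_pt h (F12_ell h)) (cgX dn37 h.r37 h.u37 h.v37)
    (cgY dn37 h.r37 h.u37 h.v37) 16 _ k37 n hn

theorem m97 {r u v : ℚ} (h : St12 r u v) (n : Fin 12 → ℤ)
    (hn : ∑ i, n i • P12 h i = 0) :
    (3 : ℤ) ∣ ∑ i, n i * (![0, 0, 1, 2, 1, 2, 2, 1, 1, 0, 2, 2] : Fin 12 → ℤ) i := by
  obtain ⟨f, hf⟩ := F12_rdn (h.r97.pow 2) (by decide +kernel)
  exact red_one hf (F12_pt h (F12_ell h)) (cgX dn97 h.r97 h.u97 h.v97)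
    (cgY dn97 h.r97 h.u97 h.v97) 36 _ k97 n hn

theorem m107 {r u v : ℚ} (h : St12 r u v) (n : Fin 12 → ℤ)
    (hn : ∑ i, n i • P12 h i = 0) :
    (3 : ℤ) ∣ ∑ i, n i * (![1, 2, 2, 0, 2, 1, 2, 0, 1, 0, 2, 0] : Fin 12 → ℤ) i := by
  obtain ⟨f, hf⟩ := F12_rdn (h.r107.pow 2) (by decide +kernel)
  exact red_one hf (F12_pt h (F12_ell h)) (cgX dn107 h.r107 h.u107 h.v107)
    (cgY dn107 h.r107 h.u107 h.v107) 36 _ k107 n hn

theorem m157 {r u v : ℚ} (h : St12 r u v) (n : Fin 12 → ℤ)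
    (hn : ∑ i, n i • P12 h i = 0) :
    (3 : ℤ) ∣ ∑ i, n i * (![1, 0, 0, 2, 0, 1, 2, 2, 2, 0, 2, 0] : Fin 12 → ℤ) i := by
  obtain ⟨f, hf⟩ := F12_rdn (h.r157.pow 2) (by decide +kernel)
  exact red_one hf (F12_pt h (F12_ell h)) (cgX dn157 h.r157 h.u157 h.v157)
    (cgY dn157 h.r157 h.u157 h.v157) 58 _ k157 n hn

theorem m163 {r u v : ℚ} (h : St12 r u v) (n : Fin 12 → ℤ)
    (hn : ∑ i, n i • P12 h i = 0) :
    (3 : ℤ) ∣ ∑ i, n i * (![0, 1, 0, 2, 2, 0, 0, 0, 2, 1, 0, 2] : Fin 12 → ℤ) i := by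
  obtain ⟨f, hf⟩ := F12_rdn (h.r163.pow 2) (by decide +kernel)
  exact red_one hf (F12_pt h (F12_ell h)) (cgX dn163 h.r163 h.u163 h.v163)
    (cgY dn163 h.r163 h.u163 h.v163) 60 _ k163 n hn

theorem m173 {r u v : ℚ} (h : St12 r u v) (n : Fin 12 → ℤ)
    (hn : ∑ i, n i • P12 h i = 0) :
    (3 : ℤ) ∣ ∑ i, n i * (![1, 2, 0, 0, 1, 1, 0, 0, 0, 2, 0, 0] : Fin 12 → ℤ) i := by
  obtain ⟨f, hf⟩ := F12_rdn (h.r173.pow 2) (by decide +kernel)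
  exact red_one hf (F12_pt h (F12_ell h)) (cgX dn173 h.r173 h.u173 h.v173)
    (cgY dn173 h.r173 h.u173 h.v173) 64 _ k173 n hn

theorem m191 {r u v : ℚ} (h : St12 r u v) (n : Fin 12 → ℤ)
    (hn : ∑ i, n i • P12 h i = 0) :
    (3 : ℤ) ∣ ∑ i, n i * (![1, 0, 1, 2, 0, 1, 1, 0, 1, 0, 1, 0] : Fin 12 → ℤ) i := by
  obtain ⟨f, hf⟩ := F12_rdn (h.r191.pow 2) (by decide +kernel)
  exact red_one hf (F12_pt h (F12_ell h)) (cgX dn191 h.r191 h.u191 h.v191)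
    (cgY dn191 h.r191 h.u191 h.v191) 72 _ k191 n hn

theorem m193 {r u v : ℚ} (h : St12 r u v) (n : Fin 12 → ℤ)
    (hn : ∑ i, n i • P12 h i = 0) :
    (3 : ℤ) ∣ ∑ i, n i * (![1, 1, 0, 1, 0, 2, 1, 2, 0, 0, 1, 1] : Fin 12 → ℤ) i := by
  obtain ⟨f, hf⟩ := F12_rdn (h.r193.pow 2) (by decide +kernel)
  exact red_one hf (F12_pt h (F12_ell h)) (cgX dn193 h.r193 h.u193 h.v193)
    (cgY dn193 h.r193 h.u193 h.v193) 66 _ k193 n hn

theorem m227 {r u v : ℚ} (h : St12 r u v) (n : Fin 12 → ℤ)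
    (hn : ∑ i, n i • P12 h i = 0) :
    (3 : ℤ) ∣ ∑ i, n i * (![0, 1, 0, 0, 1, 2, 1, 2, 0, 1, 0, 0] : Fin 12 → ℤ) i := by
  obtain ⟨f, hf⟩ := F12_rdn (h.r227.pow 2) (by decide +kernel)
  exact red_one hf (F12_pt h (F12_ell h)) (cgX dn227 h.r227 h.u227 h.v227)
    (cgY dn227 h.r227 h.u227 h.v227) 84 _ k227 n hn

theorem m229 {r u v : ℚ} (h : St12 r u v) (n : Fin 12 → ℤ)
    (hn : ∑ i, n i • P12 h i = 0) :
    (3 : ℤ) ∣ ∑ i, n i * (![0, 0, 1, 1, 2, 0, 1, 1, 2, 2, 1, 1] : Fin 12 → ℤ) i := by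
  obtain ⟨f, hf⟩ := F12_rdn (h.r229.pow 2) (by decide +kernel)
  exact red_one hf (F12_pt h (F12_ell h)) (cgX dn229 h.r229 h.u229 h.v229)
    (cgY dn229 h.r229 h.u229 h.v229) 82 _ k229 n hn

theorem m251 {r u v : ℚ} (h : St12 r u v) (n : Fin 12 → ℤ)
    (hn : ∑ i, n i • P12 h i = 0) :
    (3 : ℤ) ∣ ∑ i, n i * (![0, 0, 1, 2, 1, 2, 1, 1, 0, 1, 1, 1] : Fin 12 → ℤ) i := by
  obtain ⟨f, hf⟩ := F12_rdn (h.r251.pow 2) (by decide +kernel)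
  exact red_one hf (F12_pt h (F12_ell h)) (cgX dn251 h.r251 h.u251 h.v251)
    (cgY dn251 h.r251 h.u251 h.v251) 94 _ k251 n hn

theorem m257 {r u v : ℚ} (h : St12 r u v) (n : Fin 12 → ℤ)
    (hn : ∑ i, n i • P12 h i = 0) :
    (3 : ℤ) ∣ ∑ i, n i * (![1, 2, 2, 1, 0, 1, 2, 0, 2, 2, 1, 0] : Fin 12 → ℤ) i := by
  obtain ⟨f, hf⟩ := F12_rdn (h.r257.pow 2) (by decide +kernel)
  exact red_one hf (F12_pt h (F12_ell h)) (cgX dn257 h.r257 h.u257 h.v257)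
    (cgY dn257 h.r257 h.u257 h.v257) 80 _ k257 n hn

/-- the matrix of the functionals -/
def M12 : Fin 12 → Fin 12 → ℤ :=
  ![![1, 0, 0, 2, 1, 0, 1, 2, 1, 2, 2, 1],
    ![0, 0, 1, 2, 1, 2, 2, 1, 1, 0, 2, 2],
    ![1, 2, 2, 0, 2, 1, 2, 0, 1, 0, 2, 0],
    ![1, 0, 0, 2, 0, 1, 2, 2, 2, 0, 2, 0],
    ![0, 1, 0, 2, 2, 0, 0, 0, 2, 1, 0, 2],
    ![1, 2, 0, 0, 1, 1, 0, 0, 0, 2, 0, 0],
    ![1, 0, 1, 2, 0, 1, 1, 0, 1, 0, 1, 0],
    ![1, 1, 0, 1, 0, 2, 1, 2, 0, 0, 1, 1],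
    ![0, 1, 0, 0, 1, 2, 1, 2, 0, 1, 0, 0],
    ![0, 0, 1, 1, 2, 0, 1, 1, 2, 2, 1, 1],
    ![0, 0, 1, 2, 1, 2, 1, 1, 0, 1, 1, 1],
    ![1, 2, 2, 1, 0, 1, 2, 0, 2, 2, 1, 0]]

/-- its inverse modulo 3 -/
def W12 : Fin 12 → Fin 12 → ℤ :=
  ![![0, 0, 1, 0, 0, 2, 1, 0, 0, 2, 1, 0],
    ![0, 1, 0, 0, 2, 0, 1, 2, 0, 0, 1, 0],
    ![1, 1, 0, 1, 1, 0, 0, 2, 2, 1, 1, 2],
    ![1, 0, 2, 1, 1, 0, 2, 1, 2, 1, 1, 2],
    ![1, 1, 2, 0, 2, 0, 1, 1, 0, 2, 2, 1],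
    ![2, 0, 2, 1, 0, 1, 2, 2, 0, 0, 2, 2],
    ![1, 2, 0, 0, 1, 2, 1, 2, 2, 0, 0, 0],
    ![0, 1, 2, 0, 2, 0, 1, 1, 1, 0, 2, 2],
    ![2, 1, 1, 1, 1, 0, 1, 0, 1, 1, 2, 1],
    ![0, 0, 2, 1, 0, 2, 0, 1, 0, 1, 1, 0],
    ![1, 2, 1, 1, 1, 1, 1, 1, 0, 0, 1, 0],
    ![2, 2, 0, 2, 0, 2, 0, 1, 0, 0, 0, 2]]

theorem mat_dvd {k : ℕ} (M W : Fin k → Fin k → ℤ)
    (h : ∀ i j, (3 : ℤ) ∣ (∑ l, W i l * M l j) - (if i = j then 1 else 0)) (n : Fin k → ℤ)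
    (hn : ∀ l, (3 : ℤ) ∣ ∑ j, n j * M l j) (i : Fin k) : (3 : ℤ) ∣ n i := by
  have h1 : n i = ∑ l, W i l * (∑ j, n j * M l j) -
      ∑ j, n j * ((∑ l, W i l * M l j) - (if i = j then 1 else 0)) := by
    have e1 : ∑ l, W i l * (∑ j, n j * M l j) = ∑ j, n j * ∑ l, W i l * M l j := by
      simp only [Finset.mul_sum]
      rw [Finset.sum_comm]
      refine Finset.sum_congr rfl fun j _ => Finset.sum_congr rfl fun l _ => ?_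
      ring
    have e2 : ∑ j, n j * (if i = j then 1 else 0) = n i := by
      simp
    rw [e1, ← Finset.sum_sub_distrib, ← e2]
    refine Finset.sum_congr rfl fun j _ => ?_
    ring
  rw [h1]
  refine dvd_sub (Finset.dvd_sum fun l _ => (hn l).mul_left _)
    (Finset.dvd_sum fun j _ => (h i j).mul_left _)

theorem n_dvd {r u v : ℚ} (h : St12 r u v) (n : Fin 12 → ℤ)
    (hn : ∑ i, n i • P12 h i = 0) : ∀ i, (3 : ℤ) ∣ n i := by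
  refine mat_dvd M12 W12 (by decide +kernel) n ?_
  intro l
  fin_cases l
  · exact m37 h n hn
  · exact m97 h n hn
  · exact m107 h n hn
  · exact m157 h n hn
  · exact m163 h n hn
  · exact m173 h n hn
  · exact m191 h n hn
  · exact m193 h n hn
  · exact m227 h n hn
  · exact m229 h n hn
  · exact m251 h n hn
  · exact m257 h n hn

theorem F12_zero {r u v : ℚ} (h : St12 r u v) : (F12 ℚ (r ^ 2)).toAffine.Nonsingular 0 0 :=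
  F12_ns (F12_ell h) (by ring)

theorem zero_two {r u v : ℚ} (h : St12 r u v) :
    (Affine.Point.some _ _ (F12_zero h) : (F12 ℚ (r ^ 2)).toAffine.Point) +
      Affine.Point.some _ _ (F12_zero h) = 0 := by
  refine Affine.Point.add_of_Y_eq rfl ?_
  simp [Affine.negY, F12]

theorem tor_card {r u v : ℚ} (h : St12 r u v) :
    Finite (AddCommGroup.torsion (F12 ℚ (r ^ 2)).toAffine.Point) ∧
      Nat.card (AddCommGroup.torsion (F12 ℚ (r ^ 2)).toAffine.Point) ∣ 2 := by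
  obtain ⟨f, hf⟩ := F12_rdn (h.r29.pow 2) (by decide +kernel)
  obtain ⟨g, hg⟩ := F12_rdn (h.r37.pow 2) (by decide +kernel)
  obtain ⟨h1, h2, h3⟩ := torsion_dvd (by norm_num) hf hg (by rw [card37]; norm_num)
    (by rw [card29]; norm_num)
  rw [card29] at h2
  rw [card37] at h3
  exact ⟨h1, Nat.dvd_gcd h2 h3⟩

theorem tor12 {r u v : ℚ} (h : St12 r u v) :
    Nonempty (AddCommGroup.torsion (F12 ℚ (r ^ 2)).toAffine.Point ≃+ ZMod 2) := by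
  obtain ⟨h1, h2⟩ := tor_card h
  have z2 : 2 • (Affine.Point.some _ _ (F12_zero h) : (F12 ℚ (r ^ 2)).toAffine.Point) = 0 := by
    rw [two_nsmul, zero_two h]
  have hne : (⟨Affine.Point.some _ _ (F12_zero h), isOfFinAddOrder_iff_nsmul_eq_zero.2
      ⟨2, by norm_num, z2⟩⟩ : AddCommGroup.torsion (F12 ℚ (r ^ 2)).toAffine.Point) ≠ 0 :=
    fun hc => Affine.Point.some_ne_zero _ (congrArg Subtype.val hc)
  have hnt : Nontrivial (AddCommGroup.torsion (F12 ℚ (r ^ 2)).toAffine.Point) :=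
    ⟨_, _, hne⟩
  have hgt : 1 < Nat.card (AddCommGroup.torsion (F12 ℚ (r ^ 2)).toAffine.Point) :=
    Finite.one_lt_card_iff_nontrivial.2 hnt
  have hle := Nat.le_of_dvd (by norm_num) h2
  have hc : Nat.card (AddCommGroup.torsion (F12 ℚ (r ^ 2)).toAffine.Point) = 2 := by omega
  have : Fact (Nat.Prime 2) := ⟨Nat.prime_two⟩
  have hcyc : IsAddCyclic (AddCommGroup.torsion (F12 ℚ (r ^ 2)).toAffine.Point) :=
    isAddCyclic_of_prime_card (p := 2) hc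
  have e := zmodAddCyclicAddEquiv hcyc
  rw [hc] at e
  exact ⟨e.symm⟩

theorem tor_three {r u v : ℚ} (h : St12 r u v) (x : (F12 ℚ (r ^ 2)).toAffine.Point)
    (hx : 3 • x = 0) : x = 0 := by
  obtain ⟨hF, hd⟩ := tor_card h
  obtain ⟨c, hc⟩ := hd
  have hfin : IsOfFinAddOrder x := isOfFinAddOrder_iff_nsmul_eq_zero.2 ⟨3, by norm_num, hx⟩
  have e1 : (Nat.card (AddCommGroup.torsion (F12 ℚ (r ^ 2)).toAffine.Point) * c) •
      (⟨x, hfin⟩ : AddCommGroup.torsion (F12 ℚ (r ^ 2)).toAffine.Point) = 0 := by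
    rw [mul_nsmul, card_nsmul_eq_zero', nsmul_zero]
  rw [← hc] at e1
  have e2 : 2 • x = 0 := congrArg Subtype.val e1
  have e3 : x = 3 • x - 2 • x := by
    rw [show (3 : ℕ) = 2 + 1 from rfl, add_smul, one_smul]
    abel
  rw [e3, e2, hx, sub_zero]

theorem rank12 {r u v : ℚ} (h : St12 r u v) :
    12 ≤ Module.rank ℤ (F12 ℚ (r ^ 2)).toAffine.Point := by
  have : Fact (Nat.Prime 3) := ⟨Nat.prime_three⟩
  have hli : LinearIndependent ℤ (P12 h) := by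
    refine indep 3 _ (fun i : Fin 0 => i.elim0) ?_ ?_
    · intro x hx
      refine ⟨fun i => i.elim0, ?_⟩
      rw [tor_three h x hx]
      simp
    · intro n c hrel
      rw [Fin.sum_univ_zero, add_zero] at hrel
      exact ⟨n_dvd h n hrel, fun i => i.elim0⟩
  have h1 := hli.cardinal_le_rank
  rw [Cardinal.mk_fin] at h1
  exact_mod_cast h1

end Pool.Agent.InfW
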