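import Pool.Agent.InfW.T12

/-!
# Torsion group ℤ/2 and rank at least 12: computations over small prime fields
-/

set_option autoImplicit false

namespace Pool.Agent.InfW

open WeierstrassCurve Pool.Agent.InfR Pool.Agent.InfS

theorem card_aux {p : ℕ} [Fact p.Prime] (V : WeierstrassCurve (ZMod p)) (N : ℕ)
    (h : ((Finset.univ : Finset (ZMod p × ZMod p)).filter (fun xy =>
      (xy.2 ^ 2 + V.a₁ * xy.1 * xy.2 + V.a₃ * xy.2 =
        xy.1 ^ 3 + V.a₂ * xy.1 ^ 2 + V.a₄ * xy.1 + V.a₆) ∧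
      (V.a₁ * xy.2 ≠ 3 * xy.1 ^ 2 + 2 * V.a₂ * xy.1 + V.a₄ ∨
        xy.2 ≠ -xy.2 - V.a₁ * xy.1 - V.a₃))).card + 1 = N) :
    Nat.card V.toAffine.Point = N := by
  let e : V.toAffine.Point ≃ Option {xy : ZMod p × ZMod p // V.toAffine.Nonsingular xy.1 xy.2} :=
    { toFun := fun P => match P with
        | .zero => none
        | .some x y h => some ⟨(x, y), h⟩
      invFun := fun q => match q with
        | none => .zero
        | some a => .some a.1.1 a.1.2 a.2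
      left_inv := by
        intro P
        cases P <;> rfl
      right_inv := by
        intro q
        cases q <;> rfl }
  rw [Nat.card_congr e, Finite.card_option, ← h]
  congr 1
  refine Nat.subtype_card _ ?_
  intro xy
  rw [Affine.nonsingular_iff, Affine.equation_iff, Finset.mem_filter]
  exact ⟨fun h1 => h1.2, fun h1 => ⟨Finset.mem_univ _, h1⟩⟩

theorem dn29 : Dn12 29 := by
  constructor <;> decide +kernel

theorem dn37 : Dn12 37 := by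
  constructor <;> decide +kernel

theorem dn97 : Dn12 97 := by
  constructor <;> decide +kernel

theorem dn107 : Dn12 107 := by
  constructor <;> decide +kernel

theorem dn157 : Dn12 157 := by
  constructor <;> decide +kernel

theorem dn163 : Dn12 163 := by
  constructor <;> decide +kernel

theorem dn173 : Dn12 173 := by
  constructor <;> decide +kernel

theorem dn191 : Dn12 191 := by
  constructor <;> decide +kernel

theorem dn193 : Dn12 193 := by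
  constructor <;> decide +kernel

theorem dn227 : Dn12 227 := by
  constructor <;> decide +kernel

theorem dn229 : Dn12 229 := by
  constructor <;> decide +kernel

theorem dn251 : Dn12 251 := by
  constructor <;> decide +kernel

theorem dn257 : Dn12 257 := by
  constructor <;> decide +kernel

private theorem ns37 (i : Fin 12) : (F12 (ZMod 37) (25 ^ 2)).toAffine.Nonsingular
    (X12 25 21 34 i) (Y12 25 21 34 i) := by
  rw [Affine.nonsingular_iff, Affine.equation_iff]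
  revert i
  decide +kernel

theorem k37 (h' : ∀ i, (F12 (ZMod 37) (25 ^ 2)).toAffine.Nonsingular (X12 25 21 34 i)
    (Y12 25 21 34 i)) : ∃ g : (F12 (ZMod 37) (25 ^ 2)).toAffine.Point, g ≠ 0 ∧ 3 • g = 0 ∧
      ∀ i, 16 • (.some _ _ (h' i) : (F12 (ZMod 37) (25 ^ 2)).toAffine.Point) =
        (![1, 0, 0, 2, 1, 0, 1, 2, 1, 2, 2, 1] : Fin 12 → ℤ) i • g := by
  have key : 16 • (.some _ _ (ns37 0) : (F12 (ZMod 37) (25 ^ 2)).toAffine.Point) ≠ 0 ∧
      3 • (16 • (.some _ _ (ns37 0) : (F12 (ZMod 37) (25 ^ 2)).toAffine.Point)) = 0 ∧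
      ∀ i, 16 • (.some _ _ (ns37 i) : (F12 (ZMod 37) (25 ^ 2)).toAffine.Point) =
        (![1, 0, 0, 2, 1, 0, 1, 2, 1, 2, 2, 1] : Fin 12 → ℤ) i •
          (16 • (.some _ _ (ns37 0) : (F12 (ZMod 37) (25 ^ 2)).toAffine.Point)) := by
    decide +kernel
  exact ⟨_, key⟩

private theorem ns97 (i : Fin 12) : (F12 (ZMod 97) (19 ^ 2)).toAffine.Nonsingular
    (X12 19 89 40 i) (Y12 19 89 40 i) := by
  rw [Affine.nonsingular_iff, Affine.equation_iff]
  revert i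
  decide +kernel

theorem k97 (h' : ∀ i, (F12 (ZMod 97) (19 ^ 2)).toAffine.Nonsingular (X12 19 89 40 i)
    (Y12 19 89 40 i)) : ∃ g : (F12 (ZMod 97) (19 ^ 2)).toAffine.Point, g ≠ 0 ∧ 3 • g = 0 ∧
      ∀ i, 36 • (.some _ _ (h' i) : (F12 (ZMod 97) (19 ^ 2)).toAffine.Point) =
        (![0, 0, 1, 2, 1, 2, 2, 1, 1, 0, 2, 2] : Fin 12 → ℤ) i • g := by
  have key : 36 • (.some _ _ (ns97 2) : (F12 (ZMod 97) (19 ^ 2)).toAffine.Point) ≠ 0 ∧
      3 • (36 • (.some _ _ (ns97 2) : (F12 (ZMod 97) (19 ^ 2)).toAffine.Point)) = 0 ∧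
      ∀ i, 36 • (.some _ _ (ns97 i) : (F12 (ZMod 97) (19 ^ 2)).toAffine.Point) =
        (![0, 0, 1, 2, 1, 2, 2, 1, 1, 0, 2, 2] : Fin 12 → ℤ) i •
          (36 • (.some _ _ (ns97 2) : (F12 (ZMod 97) (19 ^ 2)).toAffine.Point)) := by
    decide +kernel
  exact ⟨_, key⟩

private theorem ns107 (i : Fin 12) : (F12 (ZMod 107) (68 ^ 2)).toAffine.Nonsingular
    (X12 68 61 24 i) (Y12 68 61 24 i) := by
  rw [Affine.nonsingular_iff, Affine.equation_iff]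
  revert i
  decide +kernel

theorem k107 (h' : ∀ i, (F12 (ZMod 107) (68 ^ 2)).toAffine.Nonsingular (X12 68 61 24 i)
    (Y12 68 61 24 i)) : ∃ g : (F12 (ZMod 107) (68 ^ 2)).toAffine.Point, g ≠ 0 ∧ 3 • g = 0 ∧
      ∀ i, 36 • (.some _ _ (h' i) : (F12 (ZMod 107) (68 ^ 2)).toAffine.Point) =
        (![1, 2, 2, 0, 2, 1, 2, 0, 1, 0, 2, 0] : Fin 12 → ℤ) i • g := by
  have key : 36 • (.some _ _ (ns107 0) : (F12 (ZMod 107) (68 ^ 2)).toAffine.Point) ≠ 0 ∧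
      3 • (36 • (.some _ _ (ns107 0) : (F12 (ZMod 107) (68 ^ 2)).toAffine.Point)) = 0 ∧
      ∀ i, 36 • (.some _ _ (ns107 i) : (F12 (ZMod 107) (68 ^ 2)).toAffine.Point) =
        (![1, 2, 2, 0, 2, 1, 2, 0, 1, 0, 2, 0] : Fin 12 → ℤ) i •
          (36 • (.some _ _ (ns107 0) : (F12 (ZMod 107) (68 ^ 2)).toAffine.Point)) := by
    decide +kernel
  exact ⟨_, key⟩

private theorem ns157 (i : Fin 12) : (F12 (ZMod 157) (79 ^ 2)).toAffine.Nonsingular
    (X12 79 55 83 i) (Y12 79 55 83 i) := by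
  rw [Affine.nonsingular_iff, Affine.equation_iff]
  revert i
  decide +kernel

theorem k157 (h' : ∀ i, (F12 (ZMod 157) (79 ^ 2)).toAffine.Nonsingular (X12 79 55 83 i)
    (Y12 79 55 83 i)) : ∃ g : (F12 (ZMod 157) (79 ^ 2)).toAffine.Point, g ≠ 0 ∧ 3 • g = 0 ∧
      ∀ i, 58 • (.some _ _ (h' i) : (F12 (ZMod 157) (79 ^ 2)).toAffine.Point) =
        (![1, 0, 0, 2, 0, 1, 2, 2, 2, 0, 2, 0] : Fin 12 → ℤ) i • g := by
  have key : 58 • (.some _ _ (ns157 0) : (F12 (ZMod 157) (79 ^ 2)).toAffine.Point) ≠ 0 ∧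
      3 • (58 • (.some _ _ (ns157 0) : (F12 (ZMod 157) (79 ^ 2)).toAffine.Point)) = 0 ∧
      ∀ i, 58 • (.some _ _ (ns157 i) : (F12 (ZMod 157) (79 ^ 2)).toAffine.Point) =
        (![1, 0, 0, 2, 0, 1, 2, 2, 2, 0, 2, 0] : Fin 12 → ℤ) i •
          (58 • (.some _ _ (ns157 0) : (F12 (ZMod 157) (79 ^ 2)).toAffine.Point)) := by
    decide +kernel
  exact ⟨_, key⟩

private theorem ns163 (i : Fin 12) : (F12 (ZMod 163) (69 ^ 2)).toAffine.Nonsingular
    (X12 69 97 8 i) (Y12 69 97 8 i) := by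
  rw [Affine.nonsingular_iff, Affine.equation_iff]
  revert i
  decide +kernel

theorem k163 (h' : ∀ i, (F12 (ZMod 163) (69 ^ 2)).toAffine.Nonsingular (X12 69 97 8 i)
    (Y12 69 97 8 i)) : ∃ g : (F12 (ZMod 163) (69 ^ 2)).toAffine.Point, g ≠ 0 ∧ 3 • g = 0 ∧
      ∀ i, 60 • (.some _ _ (h' i) : (F12 (ZMod 163) (69 ^ 2)).toAffine.Point) =
        (![0, 1, 0, 2, 2, 0, 0, 0, 2, 1, 0, 2] : Fin 12 → ℤ) i • g := by
  have key : 60 • (.some _ _ (ns163 1) : (F12 (ZMod 163) (69 ^ 2)).toAffine.Point) ≠ 0 ∧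
      3 • (60 • (.some _ _ (ns163 1) : (F12 (ZMod 163) (69 ^ 2)).toAffine.Point)) = 0 ∧
      ∀ i, 60 • (.some _ _ (ns163 i) : (F12 (ZMod 163) (69 ^ 2)).toAffine.Point) =
        (![0, 1, 0, 2, 2, 0, 0, 0, 2, 1, 0, 2] : Fin 12 → ℤ) i •
          (60 • (.some _ _ (ns163 1) : (F12 (ZMod 163) (69 ^ 2)).toAffine.Point)) := by
    decide +kernel
  exact ⟨_, key⟩

private theorem ns173 (i : Fin 12) : (F12 (ZMod 173) (61 ^ 2)).toAffine.Nonsingular
    (X12 61 66 0 i) (Y12 61 66 0 i) := by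
  rw [Affine.nonsingular_iff, Affine.equation_iff]
  revert i
  decide +kernel

theorem k173 (h' : ∀ i, (F12 (ZMod 173) (61 ^ 2)).toAffine.Nonsingular (X12 61 66 0 i)
    (Y12 61 66 0 i)) : ∃ g : (F12 (ZMod 173) (61 ^ 2)).toAffine.Point, g ≠ 0 ∧ 3 • g = 0 ∧
      ∀ i, 64 • (.some _ _ (h' i) : (F12 (ZMod 173) (61 ^ 2)).toAffine.Point) =
        (![1, 2, 0, 0, 1, 1, 0, 0, 0, 2, 0, 0] : Fin 12 → ℤ) i • g := by
  have key : 64 • (.some _ _ (ns173 0) : (F12 (ZMod 173) (61 ^ 2)).toAffine.Point) ≠ 0 ∧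
      3 • (64 • (.some _ _ (ns173 0) : (F12 (ZMod 173) (61 ^ 2)).toAffine.Point)) = 0 ∧
      ∀ i, 64 • (.some _ _ (ns173 i) : (F12 (ZMod 173) (61 ^ 2)).toAffine.Point) =
        (![1, 2, 0, 0, 1, 1, 0, 0, 0, 2, 0, 0] : Fin 12 → ℤ) i •
          (64 • (.some _ _ (ns173 0) : (F12 (ZMod 173) (61 ^ 2)).toAffine.Point)) := by
    decide +kernel
  exact ⟨_, key⟩

private theorem ns191 (i : Fin 12) : (F12 (ZMod 191) (161 ^ 2)).toAffine.Nonsingular
    (X12 161 102 183 i) (Y12 161 102 183 i) := by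
  rw [Affine.nonsingular_iff, Affine.equation_iff]
  revert i
  decide +kernel

theorem k191 (h' : ∀ i, (F12 (ZMod 191) (161 ^ 2)).toAffine.Nonsingular (X12 161 102 183 i)
    (Y12 161 102 183 i)) : ∃ g : (F12 (ZMod 191) (161 ^ 2)).toAffine.Point, g ≠ 0 ∧ 3 • g = 0 ∧
      ∀ i, 72 • (.some _ _ (h' i) : (F12 (ZMod 191) (161 ^ 2)).toAffine.Point) =
        (![1, 0, 1, 2, 0, 1, 1, 0, 1, 0, 1, 0] : Fin 12 → ℤ) i • g := by
  have key : 72 • (.some _ _ (ns191 0) : (F12 (ZMod 191) (161 ^ 2)).toAffine.Point) ≠ 0 ∧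
      3 • (72 • (.some _ _ (ns191 0) : (F12 (ZMod 191) (161 ^ 2)).toAffine.Point)) = 0 ∧
      ∀ i, 72 • (.some _ _ (ns191 i) : (F12 (ZMod 191) (161 ^ 2)).toAffine.Point) =
        (![1, 0, 1, 2, 0, 1, 1, 0, 1, 0, 1, 0] : Fin 12 → ℤ) i •
          (72 • (.some _ _ (ns191 0) : (F12 (ZMod 191) (161 ^ 2)).toAffine.Point)) := by
    decide +kernel
  exact ⟨_, key⟩

private theorem ns193 (i : Fin 12) : (F12 (ZMod 193) (34 ^ 2)).toAffine.Nonsingular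
    (X12 34 130 85 i) (Y12 34 130 85 i) := by
  rw [Affine.nonsingular_iff, Affine.equation_iff]
  revert i
  decide +kernel

theorem k193 (h' : ∀ i, (F12 (ZMod 193) (34 ^ 2)).toAffine.Nonsingular (X12 34 130 85 i)
    (Y12 34 130 85 i)) : ∃ g : (F12 (ZMod 193) (34 ^ 2)).toAffine.Point, g ≠ 0 ∧ 3 • g = 0 ∧
      ∀ i, 66 • (.some _ _ (h' i) : (F12 (ZMod 193) (34 ^ 2)).toAffine.Point) =
        (![1, 1, 0, 1, 0, 2, 1, 2, 0, 0, 1, 1] : Fin 12 → ℤ) i • g := by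
  have key : 66 • (.some _ _ (ns193 0) : (F12 (ZMod 193) (34 ^ 2)).toAffine.Point) ≠ 0 ∧
      3 • (66 • (.some _ _ (ns193 0) : (F12 (ZMod 193) (34 ^ 2)).toAffine.Point)) = 0 ∧
      ∀ i, 66 • (.some _ _ (ns193 i) : (F12 (ZMod 193) (34 ^ 2)).toAffine.Point) =
        (![1, 1, 0, 1, 0, 2, 1, 2, 0, 0, 1, 1] : Fin 12 → ℤ) i •
          (66 • (.some _ _ (ns193 0) : (F12 (ZMod 193) (34 ^ 2)).toAffine.Point)) := by
    decide +kernel
  exact ⟨_, key⟩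

private theorem ns227 (i : Fin 12) : (F12 (ZMod 227) (98 ^ 2)).toAffine.Nonsingular
    (X12 98 14 168 i) (Y12 98 14 168 i) := by
  rw [Affine.nonsingular_iff, Affine.equation_iff]
  revert i
  decide +kernel

theorem k227 (h' : ∀ i, (F12 (ZMod 227) (98 ^ 2)).toAffine.Nonsingular (X12 98 14 168 i)
    (Y12 98 14 168 i)) : ∃ g : (F12 (ZMod 227) (98 ^ 2)).toAffine.Point, g ≠ 0 ∧ 3 • g = 0 ∧
      ∀ i, 84 • (.some _ _ (h' i) : (F12 (ZMod 227) (98 ^ 2)).toAffine.Point) =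
        (![0, 1, 0, 0, 1, 2, 1, 2, 0, 1, 0, 0] : Fin 12 → ℤ) i • g := by
  have key : 84 • (.some _ _ (ns227 1) : (F12 (ZMod 227) (98 ^ 2)).toAffine.Point) ≠ 0 ∧
      3 • (84 • (.some _ _ (ns227 1) : (F12 (ZMod 227) (98 ^ 2)).toAffine.Point)) = 0 ∧
      ∀ i, 84 • (.some _ _ (ns227 i) : (F12 (ZMod 227) (98 ^ 2)).toAffine.Point) =
        (![0, 1, 0, 0, 1, 2, 1, 2, 0, 1, 0, 0] : Fin 12 → ℤ) i •
          (84 • (.some _ _ (ns227 1) : (F12 (ZMod 227) (98 ^ 2)).toAffine.Point)) := by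
    decide +kernel
  exact ⟨_, key⟩

private theorem ns229 (i : Fin 12) : (F12 (ZMod 229) (24 ^ 2)).toAffine.Nonsingular
    (X12 24 147 51 i) (Y12 24 147 51 i) := by
  rw [Affine.nonsingular_iff, Affine.equation_iff]
  revert i
  decide +kernel

theorem k229 (h' : ∀ i, (F12 (ZMod 229) (24 ^ 2)).toAffine.Nonsingular (X12 24 147 51 i)
    (Y12 24 147 51 i)) : ∃ g : (F12 (ZMod 229) (24 ^ 2)).toAffine.Point, g ≠ 0 ∧ 3 • g = 0 ∧
      ∀ i, 82 • (.some _ _ (h' i) : (F12 (ZMod 229) (24 ^ 2)).toAffine.Point) =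
        (![0, 0, 1, 1, 2, 0, 1, 1, 2, 2, 1, 1] : Fin 12 → ℤ) i • g := by
  have key : 82 • (.some _ _ (ns229 2) : (F12 (ZMod 229) (24 ^ 2)).toAffine.Point) ≠ 0 ∧
      3 • (82 • (.some _ _ (ns229 2) : (F12 (ZMod 229) (24 ^ 2)).toAffine.Point)) = 0 ∧
      ∀ i, 82 • (.some _ _ (ns229 i) : (F12 (ZMod 229) (24 ^ 2)).toAffine.Point) =
        (![0, 0, 1, 1, 2, 0, 1, 1, 2, 2, 1, 1] : Fin 12 → ℤ) i •
          (82 • (.some _ _ (ns229 2) : (F12 (ZMod 229) (24 ^ 2)).toAffine.Point)) := by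
    decide +kernel
  exact ⟨_, key⟩

private theorem ns251 (i : Fin 12) : (F12 (ZMod 251) (107 ^ 2)).toAffine.Nonsingular
    (X12 107 180 190 i) (Y12 107 180 190 i) := by
  rw [Affine.nonsingular_iff, Affine.equation_iff]
  revert i
  decide +kernel

theorem k251 (h' : ∀ i, (F12 (ZMod 251) (107 ^ 2)).toAffine.Nonsingular (X12 107 180 190 i)
    (Y12 107 180 190 i)) : ∃ g : (F12 (ZMod 251) (107 ^ 2)).toAffine.Point, g ≠ 0 ∧ 3 • g = 0 ∧
      ∀ i, 94 • (.some _ _ (h' i) : (F12 (ZMod 251) (107 ^ 2)).toAffine.Point) =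
        (![0, 0, 1, 2, 1, 2, 1, 1, 0, 1, 1, 1] : Fin 12 → ℤ) i • g := by
  have key : 94 • (.some _ _ (ns251 2) : (F12 (ZMod 251) (107 ^ 2)).toAffine.Point) ≠ 0 ∧
      3 • (94 • (.some _ _ (ns251 2) : (F12 (ZMod 251) (107 ^ 2)).toAffine.Point)) = 0 ∧
      ∀ i, 94 • (.some _ _ (ns251 i) : (F12 (ZMod 251) (107 ^ 2)).toAffine.Point) =
        (![0, 0, 1, 2, 1, 2, 1, 1, 0, 1, 1, 1] : Fin 12 → ℤ) i •
          (94 • (.some _ _ (ns251 2) : (F12 (ZMod 251) (107 ^ 2)).toAffine.Point)) := by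
    decide +kernel
  exact ⟨_, key⟩

private theorem ns257 (i : Fin 12) : (F12 (ZMod 257) (182 ^ 2)).toAffine.Nonsingular
    (X12 182 81 119 i) (Y12 182 81 119 i) := by
  rw [Affine.nonsingular_iff, Affine.equation_iff]
  revert i
  decide +kernel

theorem k257 (h' : ∀ i, (F12 (ZMod 257) (182 ^ 2)).toAffine.Nonsingular (X12 182 81 119 i)
    (Y12 182 81 119 i)) : ∃ g : (F12 (ZMod 257) (182 ^ 2)).toAffine.Point, g ≠ 0 ∧ 3 • g = 0 ∧
      ∀ i, 80 • (.some _ _ (h' i) : (F12 (ZMod 257) (182 ^ 2)).toAffine.Point) =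
        (![1, 2, 2, 1, 0, 1, 2, 0, 2, 2, 1, 0] : Fin 12 → ℤ) i • g := by
  have key : 80 • (.some _ _ (ns257 0) : (F12 (ZMod 257) (182 ^ 2)).toAffine.Point) ≠ 0 ∧
      3 • (80 • (.some _ _ (ns257 0) : (F12 (ZMod 257) (182 ^ 2)).toAffine.Point)) = 0 ∧
      ∀ i, 80 • (.some _ _ (ns257 i) : (F12 (ZMod 257) (182 ^ 2)).toAffine.Point) =
        (![1, 2, 2, 1, 0, 1, 2, 0, 2, 2, 1, 0] : Fin 12 → ℤ) i •
          (80 • (.some _ _ (ns257 0) : (F12 (ZMod 257) (182 ^ 2)).toAffine.Point)) := by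
    decide +kernel
  exact ⟨_, key⟩

theorem card29 : Nat.card (F12 (ZMod 29) (16 ^ 2)).toAffine.Point = 34 :=
  card_aux _ _ (by decide +kernel)

theorem card37 : Nat.card (F12 (ZMod 37) (25 ^ 2)).toAffine.Point = 48 :=
  card_aux _ _ (by decide +kernel)

end Pool.Agent.InfW
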