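import Pool.Agent.InfS.Gen

/-!
# Torsion group ℤ/2 and rank at least 12: the curve and its twelve points

`F12 K a : y² = x (x² + A x + B)`, `a = r²`, where `391 u² = 64 r² + 3375`, `391 v² = 15 r² + 64`
(a curve of genus one).  The twelve points are `(h z², h z S)` with `h = 1494339301` and
`h S² = (h z²)² + A (h z²) + B`.
-/

set_option autoImplicit false

namespace Pool.Agent.InfW

open WeierstrassCurve Pool.Agent.InfR Pool.Agent.InfS

/-- the coefficient of `x²` -/
def A12 {K : Type*} [Field K] (a : K) : K := -(75127360126 * ((a + 36) * (4 * a + 25)))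

/-- the coefficient of `x` -/
def B12 {K : Type*} [Field K] (a : K) : K :=
  22593196761258923035600 * a ^ 4 + 1731932490959651766258200 * a ^ 3 +
    55812985897213088574755725 * a ^ 2 + 389684810465921647408095000 * a +
    1143780586038732978677250000

/-- `y² = x (x² + A x + B)` -/
def F12 (K : Type*) [Field K] (a : K) : WeierstrassCurve K := ⟨0, A12 a, 0, B12 a, 0⟩

/-- the square roots of the abscissas (up to the factor `h`) -/
def z12 {K : Type*} [Field K] (r u v : K) : Fin 12 → K :=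
  ![21850 * (r ^ 2 - 15) / 2201,
    2300 * (r ^ 2 - 15) / 19,
    185725 * r / 2201,
    19550 * r / 19,
    1700 * (r ^ 2 + 15) / 179,
    16150 * (r ^ 2 + 15) / 1409,
    19550 * (u * v) / 179,
    185725 * (u * v) / 1409,
    391 * v,
    391 * (r * u) / 15,
    782 * (v * r - u) / 15,
    782 * (v * r + u) / 15]

/-- the square roots of the other factor (up to the factor `h`) -/
def S12 {K : Type*} [Field K] (r u v : K) : Fin 12 → K :=
  ![(142745835636000 - 1379982776903365 * r ^ 2 + 634425936160 * r ^ 4) / 4844401,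
    (45695406658500 - 6194137543765 * r ^ 2 + 203090696260 * r ^ 4) / 361,
    (4238252591476500 - 610937619417760 * r ^ 2 + 18836678184340 * r ^ 4) / 4844401,
    (315830416500 - 14715413526985 * r ^ 2 + 1403690740 * r ^ 4) / 361,
    (2984092861500 - 2705863253035 * r ^ 2 + 13262634940 * r ^ 4) / 32041,
    (534429198684000 - 121052645845435 * r ^ 2 + 2375240883040 * r ^ 4) / 1985281,
    (7187494063500 - 1916557916215 * r ^ 2 + 31944418060 * r ^ 4) / 32041,
    (155072240203500 - 192287452493440 * r ^ 2 + 689209956460 * r ^ 4) / 1985281,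
    95794924 - 77602832 * r ^ 2 + 3888340 * r ^ 4,
    (196847212500 - 17460637200 * r ^ 2 + 95794924 * r ^ 4) / 225,
    (36269892392 * r ^ 2 - 9032904000 - 40146240 * r ^ 4 + 38077612027 * (r * (u * v))) / 225,
    (36269892392 * r ^ 2 - 9032904000 - 40146240 * r ^ 4 - 38077612027 * (r * (u * v))) / 225]

/-- the abscissas of the twelve points -/
def X12 {K : Type*} [Field K] (r u v : K) (i : Fin 12) : K := 1494339301 * z12 r u v i ^ 2

/-- the ordinates of the twelve points -/
def Y12 {K : Type*} [Field K] (r u v : K) (i : Fin 12) : K :=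
  1494339301 * (z12 r u v i * S12 r u v i)

/-- the primes in the denominators are units -/
structure Dn12 (l : ℕ) : Prop where
  d1 : (2201 : ZMod l) ≠ 0
  d2 : (19 : ZMod l) ≠ 0
  d3 : (179 : ZMod l) ≠ 0
  d4 : (1409 : ZMod l) ≠ 0
  d5 : (15 : ZMod l) ≠ 0
  d6 : (4844401 : ZMod l) ≠ 0
  d7 : (361 : ZMod l) ≠ 0
  d8 : (32041 : ZMod l) ≠ 0
  d9 : (1985281 : ZMod l) ≠ 0
  d0 : (225 : ZMod l) ≠ 0

instance fact29 : Fact (Nat.Prime 29) := ⟨by norm_num⟩
instance fact37 : Fact (Nat.Prime 37) := ⟨by norm_num⟩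
instance fact97 : Fact (Nat.Prime 97) := ⟨by norm_num⟩
instance fact107 : Fact (Nat.Prime 107) := ⟨by norm_num⟩
instance fact157 : Fact (Nat.Prime 157) := ⟨by norm_num⟩
instance fact163 : Fact (Nat.Prime 163) := ⟨by norm_num⟩
instance fact173 : Fact (Nat.Prime 173) := ⟨by norm_num⟩
instance fact191 : Fact (Nat.Prime 191) := ⟨by norm_num⟩
instance fact193 : Fact (Nat.Prime 193) := ⟨by norm_num⟩
instance fact227 : Fact (Nat.Prime 227) := ⟨by norm_num⟩
instance fact229 : Fact (Nat.Prime 229) := ⟨by norm_num⟩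
instance fact251 : Fact (Nat.Prime 251) := ⟨by norm_num⟩
instance fact257 : Fact (Nat.Prime 257) := ⟨by norm_num⟩

/-- the equations of the base curve and the residues -/
structure St12 (r u v : ℚ) : Prop where
  e1 : 391 * u ^ 2 = 64 * r ^ 2 + 3375
  e2 : 391 * v ^ 2 = 15 * r ^ 2 + 64
  r29 : Cg 29 r 16
  u29 : Cg 29 u 3
  v29 : Cg 29 v 14
  r37 : Cg 37 r 25
  u37 : Cg 37 u 21
  v37 : Cg 37 v 34
  r97 : Cg 97 r 19
  u97 : Cg 97 u 89
  v97 : Cg 97 v 40
  r107 : Cg 107 r 68
  u107 : Cg 107 u 61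
  v107 : Cg 107 v 24
  r157 : Cg 157 r 79
  u157 : Cg 157 u 55
  v157 : Cg 157 v 83
  r163 : Cg 163 r 69
  u163 : Cg 163 u 97
  v163 : Cg 163 v 8
  r173 : Cg 173 r 61
  u173 : Cg 173 u 66
  v173 : Cg 173 v 0
  r191 : Cg 191 r 161
  u191 : Cg 191 u 102
  v191 : Cg 191 v 183
  r193 : Cg 193 r 34
  u193 : Cg 193 u 130
  v193 : Cg 193 v 85
  r227 : Cg 227 r 98
  u227 : Cg 227 u 14
  v227 : Cg 227 v 168
  r229 : Cg 229 r 24
  u229 : Cg 229 u 147
  v229 : Cg 229 v 51
  r251 : Cg 251 r 107
  u251 : Cg 251 u 180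
  v251 : Cg 251 v 190
  r257 : Cg 257 r 182
  u257 : Cg 257 u 81
  v257 : Cg 257 v 119

theorem F12_Δ (K : Type*) [Field K] (a : K) : (F12 K a).Δ =
    16 * B12 a ^ 2 * (A12 a ^ 2 - 4 * B12 a) := by
  simp only [WeierstrassCurve.Δ, WeierstrassCurve.b₂, WeierstrassCurve.b₄, WeierstrassCurve.b₆,
    WeierstrassCurve.b₈, F12]
  ring

section cg

variable {l : ℕ} [Fact l.Prime]

theorem cgA {a : ℚ} {b : ZMod l} (h : Cg l a b) : Cg l (A12 a) (A12 b) :=
  Cg.neg (Cg.mul (Cg.ofNat 75127360126) (Cg.mul (Cg.add h (Cg.ofNat 36))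
    (Cg.add (Cg.mul (Cg.ofNat 4) h) (Cg.ofNat 25))))

theorem cgB {a : ℚ} {b : ZMod l} (h : Cg l a b) : Cg l (B12 a) (B12 b) :=
  Cg.add (Cg.add (Cg.add (Cg.add (Cg.mul (Cg.ofNat 22593196761258923035600) (Cg.pow h 4))
    (Cg.mul (Cg.ofNat 1731932490959651766258200) (Cg.pow h 3)))
    (Cg.mul (Cg.ofNat 55812985897213088574755725) (Cg.pow h 2)))
    (Cg.mul (Cg.ofNat 389684810465921647408095000) h)) (Cg.ofNat 1143780586038732978677250000)

theorem F12_rdn {a : ℚ} {b : ZMod l} (h : Cg l a b) (hD : (F12 (ZMod l) b).Δ ≠ 0) :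
    ∃ f, Rdn (F12 ℚ a) l (F12 (ZMod l) b) f :=
  exists_rdn Cg.zero (cgA h) Cg.zero (cgB h) Cg.zero hD

theorem cgz (o : Dn12 l) {r u v : ℚ} {a b c : ZMod l} (hr : Cg l r a) (hu : Cg l u b)
    (hv : Cg l v c) (i : Fin 12) : Cg l (z12 r u v i) (z12 a b c i) := by
  have h1 := o.d1
  have h2 := o.d2
  have h3 := o.d3
  have h4 := o.d4
  have h5 := o.d5
  fin_cases i
  · change Cg l (21850 * (r ^ 2 - 15) / 2201) (21850 * (a ^ 2 - 15) / 2201)
    repeat' (first | assumption | with_reducible (exact Cg.ofNat _) |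
      with_reducible (refine Cg.div ?_ (Cg.ofNat _) ?_) | with_reducible (refine Cg.add ?_ ?_) |
      with_reducible (refine Cg.sub ?_ ?_) | with_reducible (refine Cg.mul ?_ ?_) |
      with_reducible (refine Cg.pow ?_ _))
  · change Cg l (2300 * (r ^ 2 - 15) / 19) (2300 * (a ^ 2 - 15) / 19)
    repeat' (first | assumption | with_reducible (exact Cg.ofNat _) |
      with_reducible (refine Cg.div ?_ (Cg.ofNat _) ?_) | with_reducible (refine Cg.add ?_ ?_) |
      with_reducible (refine Cg.sub ?_ ?_) | with_reducible (refine Cg.mul ?_ ?_) |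
      with_reducible (refine Cg.pow ?_ _))
  · change Cg l (185725 * r / 2201) (185725 * a / 2201)
    repeat' (first | assumption | with_reducible (exact Cg.ofNat _) |
      with_reducible (refine Cg.div ?_ (Cg.ofNat _) ?_) | with_reducible (refine Cg.add ?_ ?_) |
      with_reducible (refine Cg.sub ?_ ?_) | with_reducible (refine Cg.mul ?_ ?_) |
      with_reducible (refine Cg.pow ?_ _))
  · change Cg l (19550 * r / 19) (19550 * a / 19)
    repeat' (first | assumption | with_reducible (exact Cg.ofNat _) |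
      with_reducible (refine Cg.div ?_ (Cg.ofNat _) ?_) | with_reducible (refine Cg.add ?_ ?_) |
      with_reducible (refine Cg.sub ?_ ?_) | with_reducible (refine Cg.mul ?_ ?_) |
      with_reducible (refine Cg.pow ?_ _))
  · change Cg l (1700 * (r ^ 2 + 15) / 179) (1700 * (a ^ 2 + 15) / 179)
    repeat' (first | assumption | with_reducible (exact Cg.ofNat _) |
      with_reducible (refine Cg.div ?_ (Cg.ofNat _) ?_) | with_reducible (refine Cg.add ?_ ?_) |
      with_reducible (refine Cg.sub ?_ ?_) | with_reducible (refine Cg.mul ?_ ?_) |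
      with_reducible (refine Cg.pow ?_ _))
  · change Cg l (16150 * (r ^ 2 + 15) / 1409) (16150 * (a ^ 2 + 15) / 1409)
    repeat' (first | assumption | with_reducible (exact Cg.ofNat _) |
      with_reducible (refine Cg.div ?_ (Cg.ofNat _) ?_) | with_reducible (refine Cg.add ?_ ?_) |
      with_reducible (refine Cg.sub ?_ ?_) | with_reducible (refine Cg.mul ?_ ?_) |
      with_reducible (refine Cg.pow ?_ _))
  · change Cg l (19550 * (u * v) / 179) (19550 * (b * c) / 179)
    repeat' (first | assumption | with_reducible (exact Cg.ofNat _) |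
      with_reducible (refine Cg.div ?_ (Cg.ofNat _) ?_) | with_reducible (refine Cg.add ?_ ?_) |
      with_reducible (refine Cg.sub ?_ ?_) | with_reducible (refine Cg.mul ?_ ?_) |
      with_reducible (refine Cg.pow ?_ _))
  · change Cg l (185725 * (u * v) / 1409) (185725 * (b * c) / 1409)
    repeat' (first | assumption | with_reducible (exact Cg.ofNat _) |
      with_reducible (refine Cg.div ?_ (Cg.ofNat _) ?_) | with_reducible (refine Cg.add ?_ ?_) |
      with_reducible (refine Cg.sub ?_ ?_) | with_reducible (refine Cg.mul ?_ ?_) |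
      with_reducible (refine Cg.pow ?_ _))
  · change Cg l (391 * v) (391 * c)
    repeat' (first | assumption | with_reducible (exact Cg.ofNat _) |
      with_reducible (refine Cg.div ?_ (Cg.ofNat _) ?_) | with_reducible (refine Cg.add ?_ ?_) |
      with_reducible (refine Cg.sub ?_ ?_) | with_reducible (refine Cg.mul ?_ ?_) |
      with_reducible (refine Cg.pow ?_ _))
  · change Cg l (391 * (r * u) / 15) (391 * (a * b) / 15)
    repeat' (first | assumption | with_reducible (exact Cg.ofNat _) |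
      with_reducible (refine Cg.div ?_ (Cg.ofNat _) ?_) | with_reducible (refine Cg.add ?_ ?_) |
      with_reducible (refine Cg.sub ?_ ?_) | with_reducible (refine Cg.mul ?_ ?_) |
      with_reducible (refine Cg.pow ?_ _))
  · change Cg l (782 * (v * r - u) / 15) (782 * (c * a - b) / 15)
    repeat' (first | assumption | with_reducible (exact Cg.ofNat _) |
      with_reducible (refine Cg.div ?_ (Cg.ofNat _) ?_) | with_reducible (refine Cg.add ?_ ?_) |
      with_reducible (refine Cg.sub ?_ ?_) | with_reducible (refine Cg.mul ?_ ?_) |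
      with_reducible (refine Cg.pow ?_ _))
  · change Cg l (782 * (v * r + u) / 15) (782 * (c * a + b) / 15)
    repeat' (first | assumption | with_reducible (exact Cg.ofNat _) |
      with_reducible (refine Cg.div ?_ (Cg.ofNat _) ?_) | with_reducible (refine Cg.add ?_ ?_) |
      with_reducible (refine Cg.sub ?_ ?_) | with_reducible (refine Cg.mul ?_ ?_) |
      with_reducible (refine Cg.pow ?_ _))

theorem cgS (o : Dn12 l) {r u v : ℚ} {a b c : ZMod l} (hr : Cg l r a) (hu : Cg l u b)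
    (hv : Cg l v c) (i : Fin 12) : Cg l (S12 r u v i) (S12 a b c i) := by
  have h1 := o.d6
  have h2 := o.d7
  have h3 := o.d8
  have h4 := o.d9
  have h5 := o.d0
  fin_cases i
  · change Cg l ((142745835636000 - 1379982776903365 * r ^ 2 + 634425936160 * r ^ 4) / 4844401)
      ((142745835636000 - 1379982776903365 * a ^ 2 + 634425936160 * a ^ 4) / 4844401)
    repeat' (first | assumption | with_reducible (exact Cg.ofNat _) |
      with_reducible (refine Cg.div ?_ (Cg.ofNat _) ?_) | with_reducible (refine Cg.add ?_ ?_) |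
      with_reducible (refine Cg.sub ?_ ?_) | with_reducible (refine Cg.mul ?_ ?_) |
      with_reducible (refine Cg.pow ?_ _))
  · change Cg l ((45695406658500 - 6194137543765 * r ^ 2 + 203090696260 * r ^ 4) / 361)
      ((45695406658500 - 6194137543765 * a ^ 2 + 203090696260 * a ^ 4) / 361)
    repeat' (first | assumption | with_reducible (exact Cg.ofNat _) |
      with_reducible (refine Cg.div ?_ (Cg.ofNat _) ?_) | with_reducible (refine Cg.add ?_ ?_) |
      with_reducible (refine Cg.sub ?_ ?_) | with_reducible (refine Cg.mul ?_ ?_) |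
      with_reducible (refine Cg.pow ?_ _))
  · change Cg l ((4238252591476500 - 610937619417760 * r ^ 2 + 18836678184340 * r ^ 4) / 4844401)
      ((4238252591476500 - 610937619417760 * a ^ 2 + 18836678184340 * a ^ 4) / 4844401)
    repeat' (first | assumption | with_reducible (exact Cg.ofNat _) |
      with_reducible (refine Cg.div ?_ (Cg.ofNat _) ?_) | with_reducible (refine Cg.add ?_ ?_) |
      with_reducible (refine Cg.sub ?_ ?_) | with_reducible (refine Cg.mul ?_ ?_) |
      with_reducible (refine Cg.pow ?_ _))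
  · change Cg l ((315830416500 - 14715413526985 * r ^ 2 + 1403690740 * r ^ 4) / 361)
      ((315830416500 - 14715413526985 * a ^ 2 + 1403690740 * a ^ 4) / 361)
    repeat' (first | assumption | with_reducible (exact Cg.ofNat _) |
      with_reducible (refine Cg.div ?_ (Cg.ofNat _) ?_) | with_reducible (refine Cg.add ?_ ?_) |
      with_reducible (refine Cg.sub ?_ ?_) | with_reducible (refine Cg.mul ?_ ?_) |
      with_reducible (refine Cg.pow ?_ _))
  · change Cg l ((2984092861500 - 2705863253035 * r ^ 2 + 13262634940 * r ^ 4) / 32041)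
      ((2984092861500 - 2705863253035 * a ^ 2 + 13262634940 * a ^ 4) / 32041)
    repeat' (first | assumption | with_reducible (exact Cg.ofNat _) |
      with_reducible (refine Cg.div ?_ (Cg.ofNat _) ?_) | with_reducible (refine Cg.add ?_ ?_) |
      with_reducible (refine Cg.sub ?_ ?_) | with_reducible (refine Cg.mul ?_ ?_) |
      with_reducible (refine Cg.pow ?_ _))
  · change Cg l ((534429198684000 - 121052645845435 * r ^ 2 + 2375240883040 * r ^ 4) / 1985281)
      ((534429198684000 - 121052645845435 * a ^ 2 + 2375240883040 * a ^ 4) / 1985281)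
    repeat' (first | assumption | with_reducible (exact Cg.ofNat _) |
      with_reducible (refine Cg.div ?_ (Cg.ofNat _) ?_) | with_reducible (refine Cg.add ?_ ?_) |
      with_reducible (refine Cg.sub ?_ ?_) | with_reducible (refine Cg.mul ?_ ?_) |
      with_reducible (refine Cg.pow ?_ _))
  · change Cg l ((7187494063500 - 1916557916215 * r ^ 2 + 31944418060 * r ^ 4) / 32041)
      ((7187494063500 - 1916557916215 * a ^ 2 + 31944418060 * a ^ 4) / 32041)
    repeat' (first | assumption | with_reducible (exact Cg.ofNat _) |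
      with_reducible (refine Cg.div ?_ (Cg.ofNat _) ?_) | with_reducible (refine Cg.add ?_ ?_) |
      with_reducible (refine Cg.sub ?_ ?_) | with_reducible (refine Cg.mul ?_ ?_) |
      with_reducible (refine Cg.pow ?_ _))
  · change Cg l ((155072240203500 - 192287452493440 * r ^ 2 + 689209956460 * r ^ 4) / 1985281)
      ((155072240203500 - 192287452493440 * a ^ 2 + 689209956460 * a ^ 4) / 1985281)
    repeat' (first | assumption | with_reducible (exact Cg.ofNat _) |
      with_reducible (refine Cg.div ?_ (Cg.ofNat _) ?_) | with_reducible (refine Cg.add ?_ ?_) |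
      with_reducible (refine Cg.sub ?_ ?_) | with_reducible (refine Cg.mul ?_ ?_) |
      with_reducible (refine Cg.pow ?_ _))
  · change Cg l (95794924 - 77602832 * r ^ 2 + 3888340 * r ^ 4)
      (95794924 - 77602832 * a ^ 2 + 3888340 * a ^ 4)
    repeat' (first | assumption | with_reducible (exact Cg.ofNat _) |
      with_reducible (refine Cg.div ?_ (Cg.ofNat _) ?_) | with_reducible (refine Cg.add ?_ ?_) |
      with_reducible (refine Cg.sub ?_ ?_) | with_reducible (refine Cg.mul ?_ ?_) |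
      with_reducible (refine Cg.pow ?_ _))
  · change Cg l ((196847212500 - 17460637200 * r ^ 2 + 95794924 * r ^ 4) / 225)
      ((196847212500 - 17460637200 * a ^ 2 + 95794924 * a ^ 4) / 225)
    repeat' (first | assumption | with_reducible (exact Cg.ofNat _) |
      with_reducible (refine Cg.div ?_ (Cg.ofNat _) ?_) | with_reducible (refine Cg.add ?_ ?_) |
      with_reducible (refine Cg.sub ?_ ?_) | with_reducible (refine Cg.mul ?_ ?_) |
      with_reducible (refine Cg.pow ?_ _))
  · change Cg l ((36269892392 * r ^ 2 - 9032904000 - 40146240 * r ^ 4 + 38077612027 * (r * (u * v))) / 225)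
      ((36269892392 * a ^ 2 - 9032904000 - 40146240 * a ^ 4 + 38077612027 * (a * (b * c))) / 225)
    repeat' (first | assumption | with_reducible (exact Cg.ofNat _) |
      with_reducible (refine Cg.div ?_ (Cg.ofNat _) ?_) | with_reducible (refine Cg.add ?_ ?_) |
      with_reducible (refine Cg.sub ?_ ?_) | with_reducible (refine Cg.mul ?_ ?_) |
      with_reducible (refine Cg.pow ?_ _))
  · change Cg l ((36269892392 * r ^ 2 - 9032904000 - 40146240 * r ^ 4 - 38077612027 * (r * (u * v))) / 225)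
      ((36269892392 * a ^ 2 - 9032904000 - 40146240 * a ^ 4 - 38077612027 * (a * (b * c))) / 225)
    repeat' (first | assumption | with_reducible (exact Cg.ofNat _) |
      with_reducible (refine Cg.div ?_ (Cg.ofNat _) ?_) | with_reducible (refine Cg.add ?_ ?_) |
      with_reducible (refine Cg.sub ?_ ?_) | with_reducible (refine Cg.mul ?_ ?_) |
      with_reducible (refine Cg.pow ?_ _))

theorem cgX (o : Dn12 l) {r u v : ℚ} {a b c : ZMod l} (hr : Cg l r a) (hu : Cg l u b)
    (hv : Cg l v c) (i : Fin 12) : Cg l (X12 r u v i) (X12 a b c i) :=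
  Cg.mul (Cg.ofNat _) (Cg.pow (cgz o hr hu hv i) 2)

theorem cgY (o : Dn12 l) {r u v : ℚ} {a b c : ZMod l} (hr : Cg l r a) (hu : Cg l u b)
    (hv : Cg l v c) (i : Fin 12) : Cg l (Y12 r u v i) (Y12 a b c i) :=
  Cg.mul (Cg.ofNat _) (Cg.mul (cgz o hr hu hv i) (cgS o hr hu hv i))

end cg

theorem hq0 (r : ℚ) : 1494339301 * ((142745835636000 - 1379982776903365 * r ^ 2 + 634425936160 * r ^ 4) / 4844401) ^ 2 =
    (1494339301 * (21850 * (r ^ 2 - 15) / 2201) ^ 2) ^ 2 + A12 (r ^ 2) * (1494339301 * (21850 * (r ^ 2 - 15) / 2201) ^ 2) + B12 (r ^ 2) := by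
  unfold A12 B12
  ring

theorem hq1 (r : ℚ) : 1494339301 * ((45695406658500 - 6194137543765 * r ^ 2 + 203090696260 * r ^ 4) / 361) ^ 2 =
    (1494339301 * (2300 * (r ^ 2 - 15) / 19) ^ 2) ^ 2 + A12 (r ^ 2) * (1494339301 * (2300 * (r ^ 2 - 15) / 19) ^ 2) + B12 (r ^ 2) := by
  unfold A12 B12
  ring

theorem hq2 (r : ℚ) : 1494339301 * ((4238252591476500 - 610937619417760 * r ^ 2 + 18836678184340 * r ^ 4) / 4844401) ^ 2 =
    (1494339301 * (185725 * r / 2201) ^ 2) ^ 2 + A12 (r ^ 2) * (1494339301 * (185725 * r / 2201) ^ 2) + B12 (r ^ 2) := by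
  unfold A12 B12
  ring

theorem hq3 (r : ℚ) : 1494339301 * ((315830416500 - 14715413526985 * r ^ 2 + 1403690740 * r ^ 4) / 361) ^ 2 =
    (1494339301 * (19550 * r / 19) ^ 2) ^ 2 + A12 (r ^ 2) * (1494339301 * (19550 * r / 19) ^ 2) + B12 (r ^ 2) := by
  unfold A12 B12
  ring

theorem hq4 (r : ℚ) : 1494339301 * ((2984092861500 - 2705863253035 * r ^ 2 + 13262634940 * r ^ 4) / 32041) ^ 2 =
    (1494339301 * (1700 * (r ^ 2 + 15) / 179) ^ 2) ^ 2 + A12 (r ^ 2) * (1494339301 * (1700 * (r ^ 2 + 15) / 179) ^ 2) + B12 (r ^ 2) := by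
  unfold A12 B12
  ring

theorem hq5 (r : ℚ) : 1494339301 * ((534429198684000 - 121052645845435 * r ^ 2 + 2375240883040 * r ^ 4) / 1985281) ^ 2 =
    (1494339301 * (16150 * (r ^ 2 + 15) / 1409) ^ 2) ^ 2 + A12 (r ^ 2) * (1494339301 * (16150 * (r ^ 2 + 15) / 1409) ^ 2) + B12 (r ^ 2) := by
  unfold A12 B12
  ring

theorem hq6 {r u v : ℚ} (h1 : u ^ 2 = (64 * r ^ 2 + 3375) / 391)
    (h2 : v ^ 2 = (15 * r ^ 2 + 64) / 391) : 1494339301 * ((7187494063500 - 1916557916215 * r ^ 2 + 31944418060 * r ^ 4) / 32041) ^ 2 =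
    (1494339301 * (19550 * (u * v) / 179) ^ 2) ^ 2 + A12 (r ^ 2) * (1494339301 * (19550 * (u * v) / 179) ^ 2) + B12 (r ^ 2) := by
  have e : (19550 * (u * v) / 179) ^ 2 = (19550 / 179) ^ 2 * ((64 * r ^ 2 + 3375) / 391) * ((15 * r ^ 2 + 64) / 391) := by
    rw [← h1, ← h2]
    ring
  rw [e]
  unfold A12 B12
  ring

theorem hq7 {r u v : ℚ} (h1 : u ^ 2 = (64 * r ^ 2 + 3375) / 391)
    (h2 : v ^ 2 = (15 * r ^ 2 + 64) / 391) : 1494339301 * ((155072240203500 - 192287452493440 * r ^ 2 + 689209956460 * r ^ 4) / 1985281) ^ 2 =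
    (1494339301 * (185725 * (u * v) / 1409) ^ 2) ^ 2 + A12 (r ^ 2) * (1494339301 * (185725 * (u * v) / 1409) ^ 2) + B12 (r ^ 2) := by
  have e : (185725 * (u * v) / 1409) ^ 2 = (185725 / 1409) ^ 2 * ((64 * r ^ 2 + 3375) / 391) * ((15 * r ^ 2 + 64) / 391) := by
    rw [← h1, ← h2]
    ring
  rw [e]
  unfold A12 B12
  ring

theorem hq8 {r v : ℚ} (h2 : v ^ 2 = (15 * r ^ 2 + 64) / 391) : 1494339301 * (95794924 - 77602832 * r ^ 2 + 3888340 * r ^ 4) ^ 2 =
    (1494339301 * (391 * v) ^ 2) ^ 2 + A12 (r ^ 2) * (1494339301 * (391 * v) ^ 2) + B12 (r ^ 2) := by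
  have e : (391 * v) ^ 2 = 391 ^ 2 * ((15 * r ^ 2 + 64) / 391) := by
    rw [← h2]
    ring
  rw [e]
  unfold A12 B12
  ring

theorem hq9 {r u : ℚ} (h1 : u ^ 2 = (64 * r ^ 2 + 3375) / 391) : 1494339301 * ((196847212500 - 17460637200 * r ^ 2 + 95794924 * r ^ 4) / 225) ^ 2 =
    (1494339301 * (391 * (r * u) / 15) ^ 2) ^ 2 + A12 (r ^ 2) * (1494339301 * (391 * (r * u) / 15) ^ 2) + B12 (r ^ 2) := by
  have e : (391 * (r * u) / 15) ^ 2 = (391 / 15) ^ 2 * r ^ 2 * ((64 * r ^ 2 + 3375) / 391) := by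
    rw [← h1]
    ring
  rw [e]
  unfold A12 B12
  ring

theorem hq10 {r u v : ℚ} (h1 : u ^ 2 = (64 * r ^ 2 + 3375) / 391)
    (h2 : v ^ 2 = (15 * r ^ 2 + 64) / 391) : 1494339301 * ((36269892392 * r ^ 2 - 9032904000 - 40146240 * r ^ 4 + 38077612027 * (r * (u * v))) / 225) ^ 2 =
    (1494339301 * (782 * (v * r - u) / 15) ^ 2) ^ 2 + A12 (r ^ 2) * (1494339301 * (782 * (v * r - u) / 15) ^ 2) + B12 (r ^ 2) := by
  have hW : (r * (u * v)) ^ 2 = r ^ 2 * ((64 * r ^ 2 + 3375) / 391) * ((15 * r ^ 2 + 64) / 391) := by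
    rw [← h1, ← h2]
    ring
  have e : (782 * (v * r - u) / 15) ^ 2 = (782 / 15) ^ 2 * ((15 * r ^ 2 + 64) / 391 * r ^ 2 +
      (64 * r ^ 2 + 3375) / 391 - 2 * (r * (u * v))) := by
    rw [← h1, ← h2]
    ring
  rw [e]
  generalize r * (u * v) = W at hW ⊢
  unfold A12 B12
  linear_combination (-1738741352843990159983230913 / 75) * hW

theorem hq11 {r u v : ℚ} (h1 : u ^ 2 = (64 * r ^ 2 + 3375) / 391)
    (h2 : v ^ 2 = (15 * r ^ 2 + 64) / 391) : 1494339301 * ((36269892392 * r ^ 2 - 9032904000 - 40146240 * r ^ 4 - 38077612027 * (r * (u * v))) / 225) ^ 2 =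
    (1494339301 * (782 * (v * r + u) / 15) ^ 2) ^ 2 + A12 (r ^ 2) * (1494339301 * (782 * (v * r + u) / 15) ^ 2) + B12 (r ^ 2) := by
  have hW : (r * (u * v)) ^ 2 = r ^ 2 * ((64 * r ^ 2 + 3375) / 391) * ((15 * r ^ 2 + 64) / 391) := by
    rw [← h1, ← h2]
    ring
  have e : (782 * (v * r + u) / 15) ^ 2 = (782 / 15) ^ 2 * ((15 * r ^ 2 + 64) / 391 * r ^ 2 +
      (64 * r ^ 2 + 3375) / 391 + 2 * (r * (u * v))) := by
    rw [← h1, ← h2]
    ring
  rw [e]
  generalize r * (u * v) = W at hW ⊢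
  unfold A12 B12
  linear_combination (-1738741352843990159983230913 / 75) * hW

theorem pt_eq {r u v : ℚ} (h1 : u ^ 2 = (64 * r ^ 2 + 3375) / 391)
    (h2 : v ^ 2 = (15 * r ^ 2 + 64) / 391) (i : Fin 12) :
    1494339301 * S12 r u v i ^ 2 = X12 r u v i ^ 2 + A12 (r ^ 2) * X12 r u v i + B12 (r ^ 2) := by
  fin_cases i
  · exact hq0 r
  · exact hq1 r
  · exact hq2 r
  · exact hq3 r
  · exact hq4 r
  · exact hq5 r
  · exact hq6 h1 h2
  · exact hq7 h1 h2
  · exact hq8 h2
  · exact hq9 h1
  · exact hq10 h1 h2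
  · exact hq11 h1 h2

theorem F12_ns {a x y : ℚ} (hΔ : (F12 ℚ a).Δ ≠ 0)
    (he : y ^ 2 = x ^ 3 + A12 a * x ^ 2 + B12 a * x) : (F12 ℚ a).toAffine.Nonsingular x y := by
  rw [← Affine.equation_iff_nonsingular_of_Δ_ne_zero hΔ, Affine.equation_iff]
  simp only [F12]
  linear_combination he

theorem F12_pt {r u v : ℚ} (h : St12 r u v) (hΔ : (F12 ℚ (r ^ 2)).Δ ≠ 0) (i : Fin 12) :
    (F12 ℚ (r ^ 2)).toAffine.Nonsingular (X12 r u v i) (Y12 r u v i) := by
  apply F12_ns hΔ
  have h1 : u ^ 2 = (64 * r ^ 2 + 3375) / 391 := by linear_combination h.e1 / 391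
  have h2 : v ^ 2 = (15 * r ^ 2 + 64) / 391 := by linear_combination h.e2 / 391
  have e := pt_eq h1 h2 i
  have e1 : Y12 r u v i ^ 2 = X12 r u v i * (1494339301 * S12 r u v i ^ 2) := by
    unfold Y12 X12
    ring
  rw [e1, e]
  ring

end Pool.Agent.InfW
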